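import Mathlib
set_option autoImplicit false
open MeasureTheory Filter Topology

namespace Pool.Agent.Lib.Helper35

noncomputable section

/-- digit of the random point -/
def dig (ω : ℕ → Bool) (k : ℕ) : ℝ := if ω k then 1 else 0

/-- truncation to the first `P` digits -/
def yT (r : ℕ) (ω : ℕ → Bool) (P : ℕ) : ℝ :=
  1 + ∑ k ∈ Finset.range P, dig ω k / (r:ℝ) ^ (k + 1)

/-- the random point -/
def yy (r : ℕ) (ω : ℕ → Bool) : ℝ := 1 + ∑' k, dig ω k / (r:ℝ) ^ (k + 1)

/-- integer numerators of the truncations -/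
def Z (r : ℕ) (ω : ℕ → Bool) : ℕ → ℤ
  | 0 => 1
  | (k + 1) => r * Z r ω k + (if ω k then 1 else 0)

theorem dig_nonneg (ω : ℕ → Bool) (k : ℕ) : 0 ≤ dig ω k := by
  unfold dig; split_ifs <;> norm_num

theorem dig_le_one (ω : ℕ → Bool) (k : ℕ) : dig ω k ≤ 1 := by
  unfold dig; split_ifs <;> norm_num

theorem yT_zero (r : ℕ) (ω : ℕ → Bool) : yT r ω 0 = 1 := by simp [yT]

theorem yT_succ (r : ℕ) (ω : ℕ → Bool) (P : ℕ) :
    yT r ω (P + 1) = yT r ω P + dig ω P / (r:ℝ) ^ (P + 1) := by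
  simp only [yT, Finset.sum_range_succ]; ring

variable {r : ℕ}

theorem rpos (hr : 2 ≤ r) : (0:ℝ) < r := by exact_mod_cast (by omega : 0 < r)

theorem r2 (hr : 2 ≤ r) : (2:ℝ) ≤ r := by exact_mod_cast hr

theorem yT_eq_Z (hr : 2 ≤ r) (ω : ℕ → Bool) (P : ℕ) : (r:ℝ) ^ P * yT r ω P = Z r ω P := by
  have h0 := rpos hr
  induction P with
  | zero => simp [yT, Z]
  | succ P ih =>
    rw [yT_succ, mul_add, pow_succ, mul_right_comm, ih, Z]
    push_cast
    rw [dig]
    have : (r:ℝ) ^ P * r ≠ 0 := by positivity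
    split_ifs <;> field_simp

theorem yT_mono (hr : 2 ≤ r) (ω : ℕ → Bool) : Monotone (yT r ω) := by
  apply monotone_nat_of_le_succ
  intro P
  rw [yT_succ]
  have h0 := rpos hr
  have := dig_nonneg ω P
  have : 0 ≤ dig ω P / (r:ℝ) ^ (P + 1) := by positivity
  linarith

theorem yT_anti (hr : 2 ≤ r) (ω : ℕ → Bool) :
    Antitone (fun P => yT r ω P + 1 / (r:ℝ) ^ P) := by
  apply antitone_nat_of_succ_le
  intro P
  have h0 := rpos hr
  have h2 := r2 hr
  rw [yT_succ]
  have h1 : dig ω P / (r:ℝ) ^ (P + 1) ≤ 1 / (r:ℝ) ^ (P + 1) := by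
    gcongr; exact dig_le_one ω P
  have h3 : 1 / (r:ℝ) ^ (P + 1) + 1 / (r:ℝ) ^ (P + 1) ≤ 1 / (r:ℝ) ^ P := by
    rw [← add_div, pow_succ, div_le_div_iff₀ (by positivity) (by positivity)]
    nlinarith [pow_pos h0 P]
  linarith

theorem one_le_yT (hr : 2 ≤ r) (ω : ℕ → Bool) (P : ℕ) : 1 ≤ yT r ω P := by
  have := yT_mono hr ω (Nat.zero_le P)
  rwa [yT_zero] at this

theorem yT_le_two (hr : 2 ≤ r) (ω : ℕ → Bool) (P : ℕ) : yT r ω P ≤ 2 := by
  have := yT_anti hr ω (Nat.zero_le P)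
  simp only [yT_zero, pow_zero] at this
  have h0 := rpos hr
  have : 0 ≤ 1 / (r:ℝ) ^ P := by positivity
  linarith

theorem yT_diff (hr : 2 ≤ r) (ω : ℕ → Bool) {P Q : ℕ} (h : P ≤ Q) :
    yT r ω Q - yT r ω P ≤ 1 / (r:ℝ) ^ P := by
  have := yT_anti hr ω h
  simp only at this
  have h0 := rpos hr
  have : 0 ≤ 1 / (r:ℝ) ^ Q := by positivity
  linarith

theorem summable_dig (hr : 2 ≤ r) (ω : ℕ → Bool) :
    Summable (fun k => dig ω k / (r:ℝ) ^ (k + 1)) := by
  have h0 := rpos hr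
  apply summable_of_sum_range_le (c := 1)
  · intro n
    have := dig_nonneg ω n
    positivity
  · intro n
    have := yT_le_two hr ω n
    unfold yT at this
    linarith

theorem yT_tendsto (hr : 2 ≤ r) (ω : ℕ → Bool) : Tendsto (yT r ω) atTop (𝓝 (yy r ω)) := by
  unfold yy
  have := (summable_dig hr ω).hasSum.tendsto_sum_nat.const_add 1
  exact this

theorem yT_le_yy (hr : 2 ≤ r) (ω : ℕ → Bool) (P : ℕ) : yT r ω P ≤ yy r ω :=
  (yT_mono hr ω).ge_of_tendsto (yT_tendsto hr ω) P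

theorem yy_le (hr : 2 ≤ r) (ω : ℕ → Bool) (P : ℕ) : yy r ω ≤ yT r ω P + 1 / (r:ℝ) ^ P := by
  refine le_of_tendsto (yT_tendsto hr ω) ?_
  filter_upwards [eventually_ge_atTop P] with Q hQ
  have := yT_diff hr ω hQ
  linarith

theorem one_le_yy (hr : 2 ≤ r) (ω : ℕ → Bool) : 1 ≤ yy r ω :=
  (one_le_yT hr ω 0).trans (yT_le_yy hr ω 0)

theorem yy_le_two (hr : 2 ≤ r) (ω : ℕ → Bool) : yy r ω ≤ 2 := by
  have := yy_le hr ω 0
  rw [yT_zero] at this
  norm_num at this
  exact this

/-- strict bound when some later digit is zero -/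
theorem yy_lt (hr : 2 ≤ r) (ω : ℕ → Bool) (P : ℕ) (Q : ℕ) (hPQ : P ≤ Q) (hQ : ω Q = false) :
    yy r ω < yT r ω P + 1 / (r:ℝ) ^ P := by
  have h0 := rpos hr
  have h2 := r2 hr
  have h1 := yy_le hr ω (Q + 1)
  rw [yT_succ] at h1
  have h3 : dig ω Q = 0 := by simp [dig, hQ]
  rw [h3, zero_div, add_zero] at h1
  have h4 : 1 / (r:ℝ) ^ (Q + 1) < 1 / (r:ℝ) ^ Q := by
    apply one_div_lt_one_div_of_lt (by positivity)
    exact pow_lt_pow_right₀ (by linarith) (Nat.lt_succ_self _)
  have h5 := yT_anti hr ω hPQ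
  simp only at h5
  linarith

theorem floor_yy (hr : 2 ≤ r) (ω : ℕ → Bool) (P : ℕ) (Q : ℕ) (hPQ : P ≤ Q) (hQ : ω Q = false) :
    ⌊yy r ω * (r:ℝ) ^ P⌋ = Z r ω P := by
  have h0 := rpos hr
  rw [Int.floor_eq_iff]
  have hZ := yT_eq_Z hr ω P
  have h1 := yT_le_yy hr ω P
  have h2 := yy_lt hr ω P Q hPQ hQ
  have h3 : (0:ℝ) < (r:ℝ) ^ P := by positivity
  constructor
  · rw [← hZ, mul_comm]
    gcongr
  · rw [← hZ]
    calc yy r ω * (r:ℝ) ^ P < (yT r ω P + 1 / (r:ℝ) ^ P) * (r:ℝ) ^ P := by gcongr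
      _ = (r:ℝ) ^ P * yT r ω P + 1 := by field_simp

theorem digit_yy (hr : 2 ≤ r) (ω : ℕ → Bool) (P : ℕ) (Q : ℕ) (hPQ : P + 1 ≤ Q)
    (hQ : ω Q = false) :
    ⌊yy r ω * (r:ℝ) ^ (P + 1)⌋ % (r:ℤ) = if ω P then 1 else 0 := by
  rw [floor_yy hr ω (P + 1) Q hPQ hQ, Z]
  rw [Int.mul_add_emod_self_left]
  split_ifs
  · exact Int.emod_eq_of_lt (by norm_num) (by omega)
  · simp

/-- If the density of nonzero digits vanishes then the one-block entropy tends to zero. -/
theorem determ (hr : 2 ≤ r) (ω : ℕ → Bool)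
    (hω : Tendsto (fun N : ℕ => (((Finset.range N).filter (fun i => ω i = true)).card : ℝ) / N)
      atTop (𝓝 0)) (ε : ℝ) (hε : 0 < ε) :
    ∃ N0 : ℕ, ∀ N : ℕ, N0 ≤ N →
        ∑ w : Fin 1 → Fin r,
          Real.negMulLog
            ((((Finset.range N).filter
                (fun i => ∀ j : Fin 1,
                  ⌊yy r ω * (r : ℝ) ^ (i + (j : ℕ) + 1)⌋ % (r : ℤ) = ((w j : ℕ) : ℤ))).card : ℝ)
              / (N : ℝ)) < ε := by
  classical
  -- infinitely many zeros
  have hinf : ∀ P, ∃ Q, P ≤ Q ∧ ω Q = false := by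
    intro P
    by_contra hcon
    push Not at hcon
    have hall : ∀ Q, P ≤ Q → ω Q = true := by
      intro Q hQ
      have := hcon Q hQ
      simpa using this
    have h1 : ∀ᶠ N : ℕ in atTop, (1/2 : ℝ) ≤
        (((Finset.range N).filter (fun i => ω i = true)).card : ℝ) / N := by
      filter_upwards [eventually_ge_atTop (2 * P + 1)] with N hN
      have hNpos : (0:ℝ) < N := by exact_mod_cast (by omega : 0 < N)
      rw [le_div_iff₀ hNpos]
      have h2 : (Finset.Ico P N) ⊆ (Finset.range N).filter (fun i => ω i = true) := by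
        intro i hi
        rw [Finset.mem_Ico] at hi
        rw [Finset.mem_filter, Finset.mem_range]
        exact ⟨hi.2, hall i hi.1⟩
      have h3 := Finset.card_le_card h2
      rw [Nat.card_Ico] at h3
      have h4 : (N : ℝ) ≤ 2 * (((Finset.range N).filter (fun i => ω i = true)).card : ℝ) := by
        exact_mod_cast (by omega : N ≤ 2 * ((Finset.range N).filter (fun i => ω i = true)).card)
      linarith
    have h2 := hω.eventually_lt_const (by norm_num : (0:ℝ) < 1/2)
    obtain ⟨N, hN1, hN2⟩ := (h1.and h2).exists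
    linarith
  have hdig : ∀ P, ⌊yy r ω * (r:ℝ) ^ (P + 1)⌋ % (r:ℤ) = if ω P then 1 else 0 := by
    intro P
    obtain ⟨Q, hQ1, hQ2⟩ := hinf (P + 1)
    exact digit_yy hr ω P Q hQ1 hQ2
  -- the limit of each frequency
  have hlim : ∀ w : Fin 1 → Fin r, Tendsto (fun N : ℕ =>
      ((((Finset.range N).filter
                (fun i => ∀ j : Fin 1,
                  ⌊yy r ω * (r : ℝ) ^ (i + (j : ℕ) + 1)⌋ % (r : ℤ) = ((w j : ℕ) : ℤ))).card : ℝ)
              / (N : ℝ))) atTop (𝓝 (if ((w 0 : ℕ)) = 0 then 1 else 0)) := by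
    intro w
    have hfilt : ∀ N : ℕ, (Finset.range N).filter
                (fun i => ∀ j : Fin 1,
                  ⌊yy r ω * (r : ℝ) ^ (i + (j : ℕ) + 1)⌋ % (r : ℤ) = ((w j : ℕ) : ℤ))
        = (Finset.range N).filter (fun i => (if ω i then (1:ℤ) else 0) = ((w 0 : ℕ) : ℤ)) := by
      intro N
      refine Finset.filter_congr fun i _ => ?_
      rw [Fin.forall_fin_one]
      simp only [Fin.isValue, Fin.val_zero, add_zero]
      rw [hdig i]
    simp only [hfilt]
    by_cases h0 : ((w 0 : ℕ)) = 0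
    · rw [if_pos h0]
      have h1 : Tendsto (fun N : ℕ => 1 -
          (((Finset.range N).filter (fun i => ω i = true)).card : ℝ) / N) atTop (𝓝 (1 - 0)) :=
        hω.const_sub 1
      rw [sub_zero] at h1
      refine h1.congr' ?_
      filter_upwards [eventually_gt_atTop 0] with N hN
      have hNpos : (0:ℝ) < N := by exact_mod_cast hN
      rw [eq_div_iff hNpos.ne', sub_mul, div_mul_cancel₀ _ hNpos.ne', one_mul]
      have h2 := Finset.card_filter_add_card_filter_not (s := Finset.range N) (fun i => ω i = true)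
      rw [Finset.card_range] at h2
      have h3 : (Finset.range N).filter (fun i => (if ω i then (1:ℤ) else 0) = ((w 0 : ℕ) : ℤ))
          = (Finset.range N).filter (fun i => ¬ ω i = true) := by
        refine Finset.filter_congr fun i _ => ?_
        rw [h0]
        by_cases hi : ω i = true <;> simp [hi]
      rw [h3]
      have h4 : ((((Finset.range N).filter (fun i => ω i = true)).card : ℝ)
        + (((Finset.range N).filter (fun i => ¬ ω i = true)).card : ℝ)) = N := by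
        exact_mod_cast h2
      linarith
    · rw [if_neg h0]
      refine squeeze_zero (fun N => by positivity) (fun N => ?_) hω
      gcongr with i hi
      intro h
      by_contra hi2
      rw [if_neg hi2] at h
      apply h0
      exact_mod_cast h.symm
  have hsum : Tendsto (fun N : ℕ => ∑ w : Fin 1 → Fin r,
          Real.negMulLog
            ((((Finset.range N).filter
                (fun i => ∀ j : Fin 1,
                  ⌊yy r ω * (r : ℝ) ^ (i + (j : ℕ) + 1)⌋ % (r : ℤ) = ((w j : ℕ) : ℤ))).card : ℝ)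
              / (N : ℝ))) atTop (𝓝 (∑ w : Fin 1 → Fin r,
                Real.negMulLog (if ((w 0 : ℕ)) = 0 then 1 else 0))) := by
    apply tendsto_finsetSum
    intro w _
    exact (Real.continuous_negMulLog.tendsto _).comp (hlim w)
  have hz : (∑ w : Fin 1 → Fin r, Real.negMulLog (if ((w 0 : ℕ)) = 0 then 1 else 0)) = 0 := by
    apply Finset.sum_eq_zero
    intro w _
    split_ifs
    · exact Real.negMulLog_one
    · exact Real.negMulLog_zero
  rw [hz] at hsum
  exact eventually_atTop.1 (hsum.eventually_lt_const hε)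

end

end Pool.Agent.Lib.Helper35
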