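import Mathlib
import Pool.Agent.Lib.Helper35.Digits
set_option autoImplicit false
open MeasureTheory Filter Topology

namespace Pool.Agent.Lib.Helper35

noncomputable section

/-- positions below `M` at which `r^q β` is far from the integers -/
def NT (r : ℕ) (β : ℝ) (M : ℕ) : Finset ℕ :=
  (Finset.range M).filter
    (fun q => 1 / (2 * (r:ℝ)) ≤ |(r:ℝ) ^ q * β - round ((r:ℝ) ^ q * β)|)

/-- the possible values of `round (r^M β)` when `β` has few nontrivial positions -/
def codes (r h : ℕ) : ℕ → ℕ → Finset ℤ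
  | 0, _ => Finset.Icc 0 (h : ℤ)
  | M + 1, 0 => (codes r h M 0).image (fun a => (r:ℤ) * a)
  | M + 1, K + 1 => (codes r h M (K + 1)).image (fun a => (r:ℤ) * a) ∪
      ((codes r h M K) ×ˢ (Finset.Icc (-(r:ℤ)) r)).image (fun p => (r:ℤ) * p.1 + p.2)

theorem codes_card (r h : ℕ) (M K : ℕ) :
    (codes r h M K).card ≤ (h + 1) * ((2 * r + 1) * (M + 1)) ^ K := by
  induction M generalizing K with
  | zero =>
    rw [codes]
    simp only [Int.card_Icc]
    have h1 : 1 ≤ ((2 * r + 1) * (0 + 1)) ^ K := Nat.one_le_pow _ _ (by omega)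
    have h2 : ((h:ℤ) + 1 - 0).toNat = h + 1 := by omega
    rw [h2]
    exact Nat.le_mul_of_pos_right _ h1
  | succ M ih =>
    cases K with
    | zero =>
      rw [codes]
      refine Finset.card_image_le.trans ?_
      simpa using ih 0
    | succ K =>
      rw [codes]
      refine (Finset.card_union_le _ _).trans ?_
      refine (add_le_add Finset.card_image_le Finset.card_image_le).trans ?_
      rw [Finset.card_product]
      have h1 : (Finset.Icc (-(r:ℤ)) r).card = 2 * r + 1 := by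
        rw [Int.card_Icc]; omega
      rw [h1]
      have h2 := ih (K + 1)
      have h3 := ih K
      set B := 2 * r + 1 with hB
      calc (codes r h M (K + 1)).card + (codes r h M K).card * B
          ≤ (h + 1) * (B * (M + 1)) ^ (K + 1) + (h + 1) * (B * (M + 1)) ^ K * B := by
            gcongr
        _ = (h + 1) * (B ^ (K + 1) * ((M + 1) ^ K * (M + 2))) := by
            simp only [mul_pow]; ring
        _ ≤ (h + 1) * (B ^ (K + 1) * ((M + 2) ^ K * (M + 2))) := by gcongr; omega
        _ = (h + 1) * (B * (M + 1 + 1)) ^ (K + 1) := by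
            simp only [mul_pow]; ring

variable {r : ℕ}

theorem code_mem (hr : 2 ≤ r) (h : ℕ) (β : ℝ) (hβ0 : 0 ≤ β) (hβh : β ≤ h) (M K : ℕ)
    (hK : (NT r β M).card ≤ K) : round ((r:ℝ) ^ M * β) ∈ codes r h M K := by
  have h0 := rpos hr
  have h2 := r2 hr
  induction M generalizing K with
  | zero =>
    rw [codes, Finset.mem_Icc, pow_zero, one_mul]
    constructor
    · rw [round_eq]
      apply Int.floor_nonneg.2
      linarith
    · rw [round_eq]
      have : ⌊β + 1 / 2⌋ ≤ ⌊(h:ℝ) + 1 / 2⌋ := Int.floor_le_floor (by linarith)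
      refine this.trans ?_
      have h3 : ⌊(h:ℝ) + 1 / 2⌋ = h := by
        rw [Int.floor_eq_iff]; constructor <;> push_cast <;> linarith
      rw [h3]
  | succ M ih =>
    have habs := abs_sub_round ((r:ℝ) ^ M * β)
    have habs' := abs_sub_round ((r:ℝ) ^ (M + 1) * β)
    by_cases hM : 1 / (2 * (r:ℝ)) ≤ |(r:ℝ) ^ M * β - round ((r:ℝ) ^ M * β)|
    · -- nontrivial position
      have hNT : NT r β (M + 1) = insert M (NT r β M) := by
        unfold NT
        rw [Finset.range_add_one, Finset.filter_insert, if_pos hM]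
      rw [hNT, Finset.card_insert_of_notMem (by simp [NT])] at hK
      obtain ⟨K', rfl⟩ : ∃ K', K = K' + 1 := ⟨K - 1, by omega⟩
      rw [codes, Finset.mem_union]
      right
      rw [Finset.mem_image]
      refine ⟨(round ((r:ℝ) ^ M * β),
        round ((r:ℝ) ^ (M + 1) * β) - r * round ((r:ℝ) ^ M * β)), ?_, by simp⟩
      rw [Finset.mem_product]
      refine ⟨ih K' (by omega), ?_⟩
      rw [Finset.mem_Icc]
      rw [abs_le] at habs habs'
      have h3 : (r:ℝ) ^ (M + 1) * β = r * ((r:ℝ) ^ M * β) := by ring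
      have hreal : |((round ((r:ℝ) ^ (M + 1) * β) - r * round ((r:ℝ) ^ M * β) : ℤ) : ℝ)| ≤ r := by
        push_cast
        rw [abs_le]
        constructor <;> nlinarith
      rw [abs_le] at hreal
      constructor
      · have := hreal.1
        exact_mod_cast this
      · have := hreal.2
        exact_mod_cast this
    · -- trivial position
      have hNT : NT r β (M + 1) = NT r β M := by
        unfold NT
        rw [Finset.range_add_one, Finset.filter_insert, if_neg hM]
      rw [hNT] at hK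
      rw [not_le] at hM
      have h3 : round ((r:ℝ) ^ (M + 1) * β) = (r:ℤ) * round ((r:ℝ) ^ M * β) := by
        have h4 : |(r:ℝ) ^ (M + 1) * β - (((r:ℤ) * round ((r:ℝ) ^ M * β) : ℤ) : ℝ)| < 1 / 2 := by
          push_cast
          have h5 : (r:ℝ) ^ (M + 1) * β - r * round ((r:ℝ) ^ M * β)
              = r * ((r:ℝ) ^ M * β - round ((r:ℝ) ^ M * β)) := by ring
          rw [h5, abs_mul, abs_of_pos h0]
          calc (r:ℝ) * |(r:ℝ) ^ M * β - round ((r:ℝ) ^ M * β)|
              < r * (1 / (2 * (r:ℝ))) := by gcongr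
            _ = 1 / 2 := by field_simp
        rw [round_eq, Int.floor_eq_iff]
        rw [abs_lt] at h4
        constructor <;> linarith
      rw [h3]
      cases K with
      | zero =>
        rw [codes]
        exact Finset.mem_image_of_mem _ (ih 0 hK)
      | succ K =>
        rw [codes, Finset.mem_union]
        left
        exact Finset.mem_image_of_mem _ (ih (K + 1) hK)

/-- Two points with the same code have nearby prefixes. -/
theorem sep (hr : 2 ≤ r) (h : ℕ) (hh : 1 ≤ h) (M P : ℕ) (hMP : M ≤ P) (ω ω' : ℕ → Bool)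
    (hc : round ((r:ℝ) ^ M * (h / (yT r ω P) ^ 2)) = round ((r:ℝ) ^ M * (h / (yT r ω' P) ^ 2))) :
    |Z r ω M - Z r ω' M| ≤ 5 := by
  have h0 := rpos hr
  have hrM : (0:ℝ) < (r:ℝ) ^ M := by positivity
  set y := yT r ω P with hy
  set y' := yT r ω' P with hy'
  have hy1 := one_le_yT hr ω P
  have hy2 := yT_le_two hr ω P
  have hy1' := one_le_yT hr ω' P
  have hy2' := yT_le_two hr ω' P
  rw [← hy] at hy1 hy2
  rw [← hy'] at hy1' hy2'
  have hh' : (1:ℝ) ≤ h := by exact_mod_cast hh
  have h1 := abs_sub_round ((r:ℝ) ^ M * (h / y ^ 2))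
  have h2 := abs_sub_round ((r:ℝ) ^ M * (h / y' ^ 2))
  rw [hc] at h1
  have h3 : |(r:ℝ) ^ M * (h / y ^ 2) - (r:ℝ) ^ M * (h / y' ^ 2)| ≤ 1 := by
    rw [abs_le] at h1 h2 ⊢
    constructor <;> linarith
  have h4 : |y' - y| * ((r:ℝ) ^ M) ≤ 4 := by
    have h5 : (r:ℝ) ^ M * (h / y ^ 2) - (r:ℝ) ^ M * (h / y' ^ 2)
        = (y' - y) * (r:ℝ) ^ M * (h * ((y + y') / (y ^ 2 * y' ^ 2))) := by
      field_simp
      ring
    rw [h5, abs_mul, abs_mul, abs_of_pos hrM] at h3
    have h6 : 1 / 4 ≤ h * ((y + y') / (y ^ 2 * y' ^ 2)) := by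
      have h7 : 1 / 4 ≤ (y + y') / (y ^ 2 * y' ^ 2) := by
        rw [div_le_div_iff₀ (by norm_num) (by positivity)]
        have h8 : y * y' ≤ 2 * y' := by nlinarith
        have h9 : y * y' ≤ 2 * y := by nlinarith
        have h10 : y * y' ≤ 4 := by nlinarith
        have h11 : 0 < y * y' := by positivity
        nlinarith [mul_pos h11 h11]
      nlinarith
    have h12 : |h * ((y + y') / (y ^ 2 * y' ^ 2))| = h * ((y + y') / (y ^ 2 * y' ^ 2)) :=
      abs_of_pos (by linarith)
    rw [h12] at h3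
    have h13 : 0 ≤ |y' - y| * (r:ℝ) ^ M := by positivity
    nlinarith
  have hd1 := yT_diff hr ω hMP
  have hd2 := yT_mono hr ω hMP
  have hd1' := yT_diff hr ω' hMP
  have hd2' := yT_mono hr ω' hMP
  rw [← hy] at hd1 hd2
  rw [← hy'] at hd1' hd2'
  have hZ := yT_eq_Z hr ω M
  have hZ' := yT_eq_Z hr ω' M
  have hM1 : (r:ℝ) ^ M * (1 / (r:ℝ) ^ M) = 1 := by field_simp
  have hreal : |((Z r ω M - Z r ω' M : ℤ) : ℝ)| ≤ 5 := by
    push_cast
    rw [← hZ, ← hZ']
    have h4' : |(y' - y) * (r:ℝ) ^ M| ≤ 4 := by rw [abs_mul, abs_of_pos hrM]; exact h4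
    rw [abs_le] at h4' ⊢
    have e1 : (r:ℝ) ^ M * (y - yT r ω M) ≤ 1 := by
      rw [← hM1]; gcongr
    have e2 : 0 ≤ (r:ℝ) ^ M * (y - yT r ω M) := mul_nonneg hrM.le (by linarith)
    have e3 : (r:ℝ) ^ M * (y' - yT r ω' M) ≤ 1 := by
      rw [← hM1]; gcongr
    have e4 : 0 ≤ (r:ℝ) ^ M * (y' - yT r ω' M) := mul_nonneg hrM.le (by linarith)
    constructor <;> nlinarith
  have : |((Z r ω M - Z r ω' M : ℤ) : ℝ)| = ((|Z r ω M - Z r ω' M| : ℤ) : ℝ) := by
    push_cast; rfl
  rw [this] at hreal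
  exact_mod_cast hreal

end

end Pool.Agent.Lib.Helper35
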