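import Mathlib
import Pool.Agent.Lib.Helper35.Count
set_option autoImplicit false
open MeasureTheory Filter Topology ProbabilityTheory

namespace Pool.Agent.Lib.Helper35

noncomputable section

/-- the two point law with mass `p` at `true` -/
def bern (p : ℝ) : Measure Bool :=
  ENNReal.ofReal p • Measure.dirac true + ENNReal.ofReal (1 - p) • Measure.dirac false

theorem bern_prob (p : ℝ) (h0 : 0 ≤ p) (h1 : p ≤ 1) : IsProbabilityMeasure (bern p) := by
  constructor
  rw [bern, Measure.add_apply, Measure.smul_apply, Measure.smul_apply]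
  simp only [measure_univ, smul_eq_mul, mul_one]
  rw [← ENNReal.ofReal_add h0 (by linarith)]
  simp

theorem bern_integral (p : ℝ) (h0 : 0 ≤ p) (h1 : p ≤ 1) (f : Bool → ℂ) :
    ∫ b, f b ∂(bern p) = p * f true + (1 - p) * f false := by
  have hf : ∀ c : ENNReal, c ≠ ⊤ → ∀ b, Integrable f (c • Measure.dirac b) := by
    intro c hc b
    exact (integrable_dirac (by simp)).smul_measure hc
  rw [bern, integral_add_measure (hf _ ENNReal.ofReal_ne_top _) (hf _ ENNReal.ofReal_ne_top _),
    integral_smul_measure, integral_smul_measure, integral_dirac, integral_dirac,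
    ENNReal.toReal_ofReal h0, ENNReal.toReal_ofReal (by linarith)]
  simp

theorem bern_singleton (p : ℝ) (b : Bool) :
    bern p {b} = ENNReal.ofReal (if b then p else 1 - p) := by
  rw [bern, Measure.add_apply, Measure.smul_apply, Measure.smul_apply]
  cases b <;> simp

/-- admissible sequences of probabilities -/
structure Adm (δ : ℕ → ℝ) : Prop where
  pos : ∀ k, 0 < δ k
  half : ∀ k, δ k ≤ 1 / 2
  anti : Antitone δ

instance bernP (δ : ℕ → ℝ) [hδ : Fact (Adm δ)] (k : ℕ) : IsProbabilityMeasure (bern (δ k)) :=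
  bern_prob _ (hδ.out.pos k).le ((hδ.out.half k).trans (by norm_num))

/-- product law -/
def mu (δ : ℕ → ℝ) : Measure (ℕ → Bool) := Measure.infinitePi (fun k => bern (δ k))

instance (δ : ℕ → ℝ) [hδ : Fact (Adm δ)] : IsProbabilityMeasure (mu δ) := by
  unfold mu; infer_instance

variable {δ : ℕ → ℝ} [hδ : Fact (Adm δ)]

theorem integral_prod (g : ℕ → Bool → ℂ) (Q : ℕ) :
    ∫ ω, ∏ k ∈ Finset.range Q, g k (ω k) ∂(mu δ)
      = ∏ k ∈ Finset.range Q, (δ k * g k true + (1 - δ k) * g k false) := by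
  have h1 : iIndepFun (fun (i : ℕ) (ω : ℕ → Bool) => g i (ω i)) (mu δ) := by
    unfold mu
    exact iIndepFun_infinitePi (fun i => measurable_of_countable _)
  have h2 : iIndepFun (fun (i : Fin Q) (ω : ℕ → Bool) => g i (ω i)) (mu δ) :=
    h1.precomp Fin.val_injective
  have h3 := h2.integral_fun_prod_eq_prod_integral (fun i =>
    ((measurable_of_countable (g i)).comp (measurable_pi_apply (i:ℕ))).aestronglyMeasurable)
  simp only [Finset.prod_range]
  rw [h3]
  refine Finset.prod_congr rfl fun i _ => ?_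
  have h4 : ∫ ω, g i (ω i) ∂(mu δ) = ∫ b, g i b ∂(bern (δ i)) := by
    have h5 := measurePreserving_eval_infinitePi (fun k => bern (δ k)) (i : ℕ)
    rw [← h5.map_eq, integral_map]
    · rfl
    · exact (measurable_pi_apply _).aemeasurable
    · exact (measurable_of_countable (g i)).aestronglyMeasurable
  rw [h4, bern_integral _ (hδ.out.pos i).le ((hδ.out.half i).trans (by norm_num))]

theorem cyl (a : ℕ → Bool) (n : ℕ) :
    mu δ {ω | ∀ k < n, ω k = a k} = ENNReal.ofReal
      (∏ k ∈ Finset.range n, (if a k then δ k else 1 - δ k)) := by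
  have h1 : {ω : ℕ → Bool | ∀ k < n, ω k = a k} =
      Set.pi (Finset.range n : Finset ℕ) (fun k => {a k}) := by
    ext ω; simp
  rw [h1, mu, Measure.infinitePi_pi _ (fun i _ => measurableSet_singleton _)]
  simp only [bern_singleton]
  rw [ENNReal.ofReal_prod_of_nonneg]
  intro i _
  split_ifs
  · exact (hδ.out.pos i).le
  · have := hδ.out.half i; linarith

variable {r : ℕ}

theorem Z_inj (hr : 2 ≤ r) (ω ω' : ℕ → Bool) (M : ℕ) (h : Z r ω M = Z r ω' M) :
    ∀ k < M, ω k = ω' k := by
  induction M with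
  | zero => intro k hk; omega
  | succ M ih =>
    rw [Z, Z] at h
    have h1 : ω M = ω' M := by
      have h2 := congrArg (fun z : ℤ => z % r) h
      simp only [Int.mul_add_emod_self_left] at h2
      by_contra hne
      have hr1 : (1 : ℤ) % r = 1 := Int.emod_eq_of_lt (by norm_num) (by omega)
      cases h3 : ω M <;> cases h4 : ω' M <;> rw [h3, h4] at hne <;> simp_all
    rw [h1] at h
    have h2 : Z r ω M = Z r ω' M := by
      have h3 : (r:ℤ) * Z r ω M = r * Z r ω' M := by linarith
      exact mul_left_cancel₀ (by exact_mod_cast (by omega : r ≠ 0)) h3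
    intro k hk
    rcases Nat.lt_succ_iff_lt_or_eq.1 hk with h3 | h3
    · exact ih h2 k h3
    · rw [h3]; exact h1

theorem prob_Z (hr : 2 ≤ r) (M : ℕ) (z : ℤ) :
    mu δ {ω | Z r ω M = z} ≤ ENNReal.ofReal (∏ k ∈ Finset.range M, (1 - δ k)) := by
  by_cases hex : ∃ ω₀ : ℕ → Bool, Z r ω₀ M = z
  · obtain ⟨ω₀, h0⟩ := hex
    have h1 : {ω | Z r ω M = z} ⊆ {ω : ℕ → Bool | ∀ k < M, ω k = ω₀ k} := by
      intro ω hω
      exact Z_inj hr ω ω₀ M (by rw [h0]; exact hω)
    refine (measure_mono h1).trans ?_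
    rw [cyl]
    apply ENNReal.ofReal_le_ofReal
    apply Finset.prod_le_prod
    · intro i _
      split_ifs
      · exact (hδ.out.pos i).le
      · have := hδ.out.half i; linarith
    · intro i _
      have := hδ.out.half i
      split_ifs
      · linarith
      · exact le_rfl
  · have : {ω | Z r ω M = z} = ∅ := by
      ext ω; simp only [Set.mem_setOf_eq, Set.mem_empty_iff_false, iff_false]
      exact fun h => hex ⟨ω, h⟩
    rw [this]; simp

/-- the bad event -/
def Bad (r h P M K : ℕ) : Set (ℕ → Bool) :=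
  {ω | (NT r (h / (yT r ω P) ^ 2) M).card ≤ K}

theorem prob_bad (hr : 2 ≤ r) (h : ℕ) (hh : 1 ≤ h) (M P K : ℕ) (hMP : M ≤ P) :
    mu δ (Bad r h P M K) ≤
      ENNReal.ofReal (11 * ((h + 1) * ((2 * r + 1) * (M + 1)) ^ K : ℕ) *
        ∏ k ∈ Finset.range M, (1 - δ k)) := by
  classical
  set W : ENNReal := ENNReal.ofReal (∏ k ∈ Finset.range M, (1 - δ k)) with hW
  have hcov : Bad r h P M K ⊆ ⋃ c ∈ codes r h M K,
      {ω | ω ∈ Bad r h P M K ∧ round ((r:ℝ) ^ M * (h / (yT r ω P) ^ 2)) = c} := by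
    intro ω hω
    have h1 : round ((r:ℝ) ^ M * (h / (yT r ω P) ^ 2)) ∈ codes r h M K := by
      apply code_mem hr h _ _ _ M K hω
      · have := one_le_yT hr ω P
        positivity
      · have := one_le_yT hr ω P
        apply div_le_self (by positivity)
        exact one_le_pow₀ this
    simp only [Set.mem_iUnion]
    exact ⟨_, h1, hω, rfl⟩
  have hone : ∀ c : ℤ, mu δ
      {ω | ω ∈ Bad r h P M K ∧ round ((r:ℝ) ^ M * (h / (yT r ω P) ^ 2)) = c} ≤ 11 * W := by
    intro c
    by_cases hex : ∃ ω₀, ω₀ ∈ Bad r h P M K ∧ round ((r:ℝ) ^ M * (h / (yT r ω₀ P) ^ 2)) = c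
    · obtain ⟨ω₀, _, hc⟩ := hex
      have h1 : {ω | ω ∈ Bad r h P M K ∧ round ((r:ℝ) ^ M * (h / (yT r ω P) ^ 2)) = c}
          ⊆ ⋃ z ∈ Finset.Icc (Z r ω₀ M - 5) (Z r ω₀ M + 5), {ω | Z r ω M = z} := by
        intro ω hω
        have h2 := sep hr h hh M P hMP ω ω₀ (by rw [hω.2, hc])
        simp only [Set.mem_iUnion]
        refine ⟨Z r ω M, ?_, rfl⟩
        rw [abs_le] at h2
        rw [Finset.mem_Icc]
        constructor <;> linarith
      refine (measure_mono h1).trans ?_
      refine (measure_biUnion_finset_le _ _).trans ?_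
      refine (Finset.sum_le_card_nsmul _ _ W (fun z _ => prob_Z hr M z)).trans ?_
      rw [Int.card_Icc, nsmul_eq_mul]
      have h3 : (Z r ω₀ M + 5 + 1 - (Z r ω₀ M - 5)).toNat = 11 := by omega
      rw [h3]
      norm_num
    · have : {ω | ω ∈ Bad r h P M K ∧ round ((r:ℝ) ^ M * (h / (yT r ω P) ^ 2)) = c} = ∅ := by
        ext ω; simp only [Set.mem_setOf_eq, Set.mem_empty_iff_false, iff_false]
        exact fun h => hex ⟨ω, h⟩
      rw [this]; simp
  refine (measure_mono hcov).trans ?_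
  refine (measure_biUnion_finset_le _ _).trans ?_
  refine (Finset.sum_le_card_nsmul _ _ (11 * W) (fun z _ => hone z)).trans ?_
  rw [nsmul_eq_mul, ENNReal.ofReal_mul (by positivity), ENNReal.ofReal_mul (by norm_num), ← hW]
  have h4 : ENNReal.ofReal (((h + 1) * ((2 * r + 1) * (M + 1)) ^ K : ℕ) : ℝ)
      = (((h + 1) * ((2 * r + 1) * (M + 1)) ^ K : ℕ) : ENNReal) := ENNReal.ofReal_natCast _
  rw [h4]
  have h5 : ENNReal.ofReal 11 = 11 := by norm_num
  rw [h5]
  have h6 : ((codes r h M K).card : ENNReal) ≤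
      (((h + 1) * ((2 * r + 1) * (M + 1)) ^ K : ℕ) : ENNReal) := by
    exact_mod_cast codes_card r h M K
  calc ((codes r h M K).card : ENNReal) * (11 * W)
      ≤ (((h + 1) * ((2 * r + 1) * (M + 1)) ^ K : ℕ) : ENNReal) * (11 * W) := by gcongr
    _ = 11 * (((h + 1) * ((2 * r + 1) * (M + 1)) ^ K : ℕ) : ENNReal) * W := by ring

end

end Pool.Agent.Lib.Helper35
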