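import Mathlib
import Pool.Agent.Lib.Helper35.Prob
set_option autoImplicit false
open MeasureTheory Filter Topology ProbabilityTheory

namespace Pool.Agent.Lib.Helper35

noncomputable section

/-- `e(t) = exp(2πit)` -/
def ee (t : ℝ) : ℂ := Complex.exp (Complex.I * ((2 * Real.pi * t : ℝ) : ℂ))

theorem ee_add (a b : ℝ) : ee (a + b) = ee a * ee b := by
  unfold ee
  rw [← Complex.exp_add]
  congr 1
  push_cast
  ring

theorem ee_zero : ee 0 = 1 := by simp [ee]

theorem ee_norm (t : ℝ) : ‖ee t‖ = 1 := by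
  unfold ee
  exact Complex.norm_exp_I_mul_ofReal _

theorem ee_sub_norm (a b : ℝ) : ‖ee a - ee b‖ ≤ 2 * Real.pi * |a - b| := by
  have h1 : ee a = ee b * ee (a - b) := by rw [← ee_add]; congr 1; ring
  have h2 : ee a - ee b = ee b * (ee (a - b) - 1) := by rw [h1]; ring
  rw [h2, norm_mul, ee_norm, one_mul]
  unfold ee
  refine Real.norm_exp_I_mul_ofReal_sub_one_le.trans ?_
  rw [Real.norm_eq_abs, abs_mul, abs_mul]
  rw [abs_of_pos Real.pi_pos]
  norm_num

theorem ee_sum {ι : Type*} (s : Finset ι) (f : ι → ℝ) : ee (∑ i ∈ s, f i) = ∏ i ∈ s, ee (f i) := by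
  classical
  induction s using Finset.induction_on with
  | empty => simp [ee_zero]
  | insert a s ha ih => rw [Finset.sum_insert ha, Finset.prod_insert ha, ee_add, ih]

theorem ee_int_add (t : ℝ) (z : ℤ) : ee (t + z) = ee t := by
  rw [ee_add]
  have : ee z = 1 := by
    unfold ee
    rw [Complex.exp_eq_one_iff]
    exact ⟨z, by push_cast; ring⟩
  rw [this, mul_one]

/-- bound of one factor -/
theorem factor_bound (p κ θ : ℝ) (hp0 : 0 ≤ p) (hp : p ≤ 1 / 2) (hκ0 : 0 ≤ κ)
    (hκ : ∀ z : ℤ, κ ≤ |θ - z|) :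
    ‖(p : ℂ) * ee θ + (1 - p)‖ ≤ Real.exp (-(4 * p * κ ^ 2)) := by
  set u : ℝ := θ - round θ with hu
  have h1 : ee θ = ee u := by
    have h2 : ee (u + (round θ : ℤ)) = ee u := ee_int_add u (round θ)
    rw [← h2]
    congr 1
    rw [hu]; ring
  have hu1 : κ ≤ |u| := hκ _
  have hu2 : |u| ≤ 1 / 2 := abs_sub_round θ
  set φ : ℝ := 2 * Real.pi * u with hφ
  have hcos : Real.cos φ ≤ 1 - 8 * κ ^ 2 := by
    have h2 : |φ| ≤ Real.pi := by
      rw [hφ, abs_mul, abs_mul, abs_of_pos Real.pi_pos, abs_of_pos (by norm_num : (0:ℝ) < 2)]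
      nlinarith [Real.pi_pos]
    have h3 := Real.cos_le_one_sub_mul_cos_sq h2
    have h4 : 2 / Real.pi ^ 2 * φ ^ 2 = 8 * u ^ 2 := by
      rw [hφ]
      have := Real.pi_pos.ne'
      field_simp
      ring
    rw [h4] at h3
    have h5 : κ ^ 2 ≤ u ^ 2 := by
      rw [← sq_abs u]
      gcongr
    linarith
  have hnsq : ‖(p : ℂ) * ee θ + (1 - p)‖ ^ 2 = p ^ 2 + (1 - p) ^ 2 + 2 * p * (1 - p) * Real.cos φ := by
    rw [h1]
    have h2 : (p : ℂ) * ee u + (1 - p) = ((p * Real.cos φ + (1 - p) : ℝ) : ℂ)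
        + ((p * Real.sin φ : ℝ) : ℂ) * Complex.I := by
      unfold ee
      rw [← hφ, mul_comm Complex.I, Complex.exp_mul_I, ← Complex.ofReal_cos, ← Complex.ofReal_sin]
      push_cast
      ring
    rw [h2, Complex.sq_norm, Complex.normSq_add_mul_I]
    have := Real.sin_sq_add_cos_sq φ
    nlinarith
  have h6 : ‖(p : ℂ) * ee θ + (1 - p)‖ ^ 2 ≤ Real.exp (-(4 * p * κ ^ 2)) ^ 2 := by
    rw [hnsq]
    have h7 : p ^ 2 + (1 - p) ^ 2 + 2 * p * (1 - p) * Real.cos φ ≤ 1 - 8 * p * κ ^ 2 := by
      have h8 : 0 ≤ 2 * p * (1 - p) := by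
        have : 0 ≤ 1 - p := by linarith
        positivity
      have h9 := mul_le_mul_of_nonneg_left hcos h8
      have h10 : 0 ≤ p * κ ^ 2 := by positivity
      nlinarith
    refine h7.trans ?_
    have h11 := Real.add_one_le_exp (-(8 * p * κ ^ 2))
    have h12 : Real.exp (-(4 * p * κ ^ 2)) ^ 2 = Real.exp (-(8 * p * κ ^ 2)) := by
      rw [← Real.exp_nat_mul]
      congr 1
      push_cast
      ring
    rw [h12]
    linarith
  exact (abs_le_of_sq_le_sq' h6 (Real.exp_pos _).le).2

/-- restriction to the first `P` coordinates -/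
def pre (P : ℕ) (ω : ℕ → Bool) : Fin P → Bool := fun k => ω k

/-- extension by `false` -/
def ext {P : ℕ} (s : Fin P → Bool) : ℕ → Bool := fun k => if h : k < P then s ⟨k, h⟩ else false

theorem yT_ext (r P : ℕ) (ω : ℕ → Bool) : yT r (ext (pre P ω)) P = yT r ω P := by
  unfold yT
  congr 1
  refine Finset.sum_congr rfl fun k hk => ?_
  rw [Finset.mem_range] at hk
  simp [dig, ext, pre, hk]

variable {δ : ℕ → ℝ} [hδ : Fact (Adm δ)]

theorem prefix_int (P Q : ℕ) (hPQ : P ≤ Q) (F : (Fin P → Bool) → ℂ)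
    (g : (Fin P → Bool) → ℕ → Bool → ℂ) :
    ∫ ω, F (pre P ω) * ∏ k ∈ Finset.Ico P Q, g (pre P ω) k (ω k) ∂(mu δ)
      = ∑ s : Fin P → Bool, (∏ k ∈ Finset.range P,
          (if ext s k then δ k else 1 - δ k : ℝ) : ℂ) *
          (F s * ∏ k ∈ Finset.Ico P Q, (δ k * g s k true + (1 - δ k) * g s k false)) := by
  classical
  let g' : (Fin P → Bool) → ℕ → Bool → ℂ := fun s k b =>
    if k < P then (if b = ext s k then 1 else 0) else g s k b
  have hprod : ∀ (s : Fin P → Bool) (ω : ℕ → Bool), ∏ k ∈ Finset.range Q, g' s k (ω k)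
      = (if pre P ω = s then 1 else 0) * ∏ k ∈ Finset.Ico P Q, g s k (ω k) := by
    intro s ω
    rw [← Finset.prod_range_mul_prod_Ico _ hPQ]
    congr 1
    · by_cases h : pre P ω = s
      · rw [if_pos h]
        apply Finset.prod_eq_one
        intro k hk
        rw [Finset.mem_range] at hk
        simp only [g', if_pos hk]
        rw [if_pos]
        rw [← h]
        simp [ext, pre, hk]
      · rw [if_neg h]
        have h1 : ∃ k : Fin P, ω k ≠ s k := by
          by_contra hcon
          push Not at hcon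
          exact h (funext hcon)
        obtain ⟨k, hk⟩ := h1
        apply Finset.prod_eq_zero (i := (k : ℕ)) (Finset.mem_range.2 k.2)
        simp only [g', if_pos k.2]
        rw [if_neg]
        simpa [ext] using hk
    · refine Finset.prod_congr rfl fun k hk => ?_
      rw [Finset.mem_Ico] at hk
      simp only [g', if_neg (not_lt.2 hk.1)]
  have hpt : ∀ ω : ℕ → Bool, F (pre P ω) * ∏ k ∈ Finset.Ico P Q, g (pre P ω) k (ω k)
      = ∑ s : Fin P → Bool, F s * ∏ k ∈ Finset.range Q, g' s k (ω k) := by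
    intro ω
    rw [Finset.sum_eq_single (pre P ω)]
    · rw [hprod, if_pos rfl, one_mul]
    · intro s _ hs
      rw [hprod, if_neg (Ne.symm hs), zero_mul, mul_zero]
    · intro h; exact absurd (Finset.mem_univ _) h
  simp only [hpt]
  rw [integral_finsetSum]
  · refine Finset.sum_congr rfl fun s _ => ?_
    rw [integral_const_mul, integral_prod, ← Finset.prod_range_mul_prod_Ico _ hPQ]
    have h1 : ∏ k ∈ Finset.range P, ((δ k : ℂ) * g' s k true + (1 - δ k) * g' s k false)
        = ∏ k ∈ Finset.range P, ((if ext s k then δ k else 1 - δ k : ℝ) : ℂ) := by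
      refine Finset.prod_congr rfl fun k hk => ?_
      rw [Finset.mem_range] at hk
      simp only [g', if_pos hk]
      cases ext s k <;> simp
    have h2 : ∏ k ∈ Finset.Ico P Q, ((δ k : ℂ) * g' s k true + (1 - δ k) * g' s k false)
        = ∏ k ∈ Finset.Ico P Q, ((δ k : ℂ) * g s k true + (1 - δ k) * g s k false) := by
      refine Finset.prod_congr rfl fun k hk => ?_
      rw [Finset.mem_Ico] at hk
      simp only [g', if_neg (not_lt.2 hk.1)]
    rw [h1, h2]
    ring
  · intro s _
    apply Integrable.const_mul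
    -- bounded measurable
    have hmeas : Measurable (fun ω : ℕ → Bool => ∏ k ∈ Finset.range Q, g' s k (ω k)) := by
      apply Finset.measurable_prod
      intro k _
      exact (measurable_of_countable (g' s k)).comp (measurable_pi_apply k)
    refine Integrable.of_bound hmeas.aestronglyMeasurable
      (∏ k ∈ Finset.range Q, (‖g' s k true‖ + ‖g' s k false‖)) (Filter.Eventually.of_forall fun ω => ?_)
    rw [norm_prod]
    refine Finset.prod_le_prod (fun k _ => norm_nonneg _) fun k _ => ?_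
    cases ω k
    · linarith [norm_nonneg (g' s k true)]
    · linarith [norm_nonneg (g' s k false)]

end

end Pool.Agent.Lib.Helper35
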