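import Mathlib
import Pool.Agent.Lib.Helper35.Main
set_option autoImplicit false
open MeasureTheory Filter Topology ProbabilityTheory

namespace Pool.Agent.Lib.Helper35

noncomputable section

variable {r : ℕ}

theorem measurable_pre (P : ℕ) : Measurable (pre P) := by
  apply measurable_pi_lambda
  intro k
  exact measurable_pi_apply _

theorem measurable_dig (k : ℕ) : Measurable (fun ω : ℕ → Bool => dig ω k) := by
  have : (fun ω : ℕ → Bool => dig ω k) = (fun b : Bool => if b then (1:ℝ) else 0) ∘ (fun ω => ω k) := by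
    funext ω; simp [dig]
  rw [this]
  exact (measurable_of_countable _).comp (measurable_pi_apply k)

theorem measurable_yT (P : ℕ) : Measurable (fun ω : ℕ → Bool => yT r ω P) := by
  unfold yT
  apply Measurable.const_add
  apply Finset.measurable_sum
  intro k _
  exact (measurable_dig k).div_const _

theorem measurable_yy (hr : 2 ≤ r) : Measurable (fun ω : ℕ → Bool => yy r ω) := by
  apply measurable_of_tendsto_metrizable (f := fun P ω => yT r ω P) (fun P => measurable_yT P)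
  rw [tendsto_pi_nhds]
  intro ω
  exact yT_tendsto hr ω

theorem measurable_ee : Measurable ee := by
  unfold ee
  have : Continuous (fun t : ℝ => Complex.exp (Complex.I * ((2 * Real.pi * t : ℝ) : ℂ))) := by
    fun_prop
  exact this.measurable

/-- pointwise linearisation -/
theorem lin_est (hr : 2 ≤ r) (h m n M : ℕ) (hmn : m + 3 * M ≤ n) (ω : ℕ → Bool) :
    ‖ee ((h * ((r:ℝ) ^ n - (r:ℝ) ^ m)) / yy r ω) -
      ee ((h * ((r:ℝ) ^ n - (r:ℝ) ^ m)) / yT r ω (n - M)) *
        ∏ k ∈ Finset.Ico (n - M) (n + M),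
          ee (-((h * ((r:ℝ) ^ n - (r:ℝ) ^ m)) * dig ω k / (r:ℝ) ^ (k + 1)) / (yT r ω (n - M)) ^ 2)‖
      ≤ 4 * Real.pi * h / (r:ℝ) ^ M := by
  have h0 := rpos hr
  have h1r : (1:ℝ) ≤ r := by have := r2 hr; linarith
  set H : ℝ := h * ((r:ℝ) ^ n - (r:ℝ) ^ m) with hH
  have hH0 : 0 ≤ H := by
    have : (r:ℝ) ^ m ≤ (r:ℝ) ^ n := pow_le_pow_right₀ h1r (by omega)
    have : 0 ≤ (r:ℝ) ^ n - (r:ℝ) ^ m := by linarith
    positivity
  have hH1 : H ≤ h * (r:ℝ) ^ n := by
    have : 0 < (r:ℝ) ^ m := by positivity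
    rw [hH]
    gcongr
    linarith
  set P := n - M with hP
  set Q := n + M with hQ
  set yP := yT r ω P with hyP
  set yQ := yT r ω Q with hyQ
  set y := yy r ω with hy
  have hP1 : 1 ≤ yP := one_le_yT hr ω P
  have hQ1 : 1 ≤ yQ := one_le_yT hr ω Q
  have hy1 : 1 ≤ y := one_le_yy hr ω
  have hPQ : P ≤ Q := by omega
  have hd1 : yQ - yP ≤ 1 / (r:ℝ) ^ P := yT_diff hr ω hPQ
  have hd2 : yP ≤ yQ := yT_mono hr ω hPQ
  have hd3 : yQ ≤ y := yT_le_yy hr ω Q
  have hd4 : y ≤ yQ + 1 / (r:ℝ) ^ Q := yy_le hr ω Q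
  rw [← ee_sum, ← ee_add]
  have hsum : ∑ k ∈ Finset.Ico P Q, (-(H * dig ω k / (r:ℝ) ^ (k + 1)) / yP ^ 2)
      = - (H * (yQ - yP) / yP ^ 2) := by
    have h2 : yQ - yP = ∑ k ∈ Finset.Ico P Q, dig ω k / (r:ℝ) ^ (k + 1) := by
      rw [Finset.sum_Ico_eq_sub _ hPQ, hyQ, hyP, yT, yT]; ring
    rw [h2, Finset.mul_sum, Finset.sum_div, ← Finset.sum_neg_distrib]
    refine Finset.sum_congr rfl fun k _ => ?_
    ring
  rw [hsum]
  refine (ee_sub_norm _ _).trans ?_
  have hmain : |H / y - (H / yP + -(H * (yQ - yP) / yP ^ 2))| ≤ 2 * h / (r:ℝ) ^ M := by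
    have e1 : H / y - (H / yP + -(H * (yQ - yP) / yP ^ 2))
        = H * (1 / y - 1 / yQ) + H * ((yQ - yP) ^ 2 / (yQ * yP ^ 2)) := by
      field_simp
      ring
    have e2 : |1 / y - 1 / yQ| ≤ 1 / (r:ℝ) ^ Q := by
      rw [div_sub_div _ _ (by positivity) (by positivity), abs_div, abs_of_pos (by positivity : 0 < y * yQ)]
      rw [div_le_iff₀ (by positivity)]
      have : |1 * yQ - y * 1| = y - yQ := by
        rw [one_mul, mul_one, abs_sub_comm, abs_of_nonneg (by linarith)]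
      rw [this]
      have h3 : 1 ≤ y * yQ := by nlinarith
      have h4 : 0 < 1 / (r:ℝ) ^ Q := by positivity
      nlinarith
    have e3 : |(yQ - yP) ^ 2 / (yQ * yP ^ 2)| ≤ (1 / (r:ℝ) ^ P) ^ 2 := by
      rw [abs_of_nonneg (by positivity)]
      calc (yQ - yP) ^ 2 / (yQ * yP ^ 2) ≤ (yQ - yP) ^ 2 / 1 := by
            gcongr
            nlinarith [one_le_pow₀ (n := 2) hP1]
        _ ≤ (1 / (r:ℝ) ^ P) ^ 2 := by
            rw [div_one]
            have : 0 ≤ yQ - yP := by linarith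
            gcongr
    rw [e1]
    refine (abs_add_le _ _).trans ?_
    rw [abs_mul H (1 / y - 1 / yQ), abs_mul H ((yQ - yP) ^ 2 / (yQ * yP ^ 2)), abs_of_nonneg hH0]
    have e4 : H * |1 / y - 1 / yQ| ≤ h / (r:ℝ) ^ M := by
      calc H * |1 / y - 1 / yQ| ≤ (h * (r:ℝ) ^ n) * (1 / (r:ℝ) ^ Q) := by gcongr
        _ = h / (r:ℝ) ^ M := by
            rw [hQ, pow_add]; field_simp
    have e5 : H * |(yQ - yP) ^ 2 / (yQ * yP ^ 2)| ≤ h / (r:ℝ) ^ M := by
      calc H * |(yQ - yP) ^ 2 / (yQ * yP ^ 2)| ≤ (h * (r:ℝ) ^ n) * (1 / (r:ℝ) ^ P) ^ 2 := by gcongr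
        _ = h * ((r:ℝ) ^ n / (r:ℝ) ^ (P * 2)) := by
            rw [pow_mul]; field_simp
        _ ≤ h * (1 / (r:ℝ) ^ M) := by
            apply mul_le_mul_of_nonneg_left _ (by positivity)
            rw [div_le_div_iff₀ (by positivity) (by positivity), one_mul, ← pow_add]
            apply pow_le_pow_right₀ h1r
            omega
        _ = h / (r:ℝ) ^ M := by ring
    calc _ ≤ h / (r:ℝ) ^ M + h / (r:ℝ) ^ M := add_le_add e4 e5
      _ = 2 * h / (r:ℝ) ^ M := by ring
  calc 2 * Real.pi * |H / y - (H / yP + -(H * (yQ - yP) / yP ^ 2))|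
      ≤ 2 * Real.pi * (2 * h / (r:ℝ) ^ M) := by
        have := Real.pi_pos
        gcongr
    _ = 4 * Real.pi * h / (r:ℝ) ^ M := by ring

variable {δ : ℕ → ℝ} [hδ : Fact (Adm δ)]

/-- product bound when there are many nontrivial positions -/
theorem prod_est (hr : 2 ≤ r) (h m n N M K : ℕ) (hmn : m + 3 * M ≤ n) (hnN : n ≤ N)
    (hM : 4 * h ≤ r ^ (2 * M)) (y : ℝ) (hy1 : 1 ≤ y) :
    ∏ k ∈ Finset.Ico (n - M) (n + M),
      ‖(δ k : ℂ) * ee (-((h * ((r:ℝ) ^ n - (r:ℝ) ^ m)) * 1 / (r:ℝ) ^ (k + 1)) / y ^ 2)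
        + (1 - δ k) * ee (-((h * ((r:ℝ) ^ n - (r:ℝ) ^ m)) * 0 / (r:ℝ) ^ (k + 1)) / y ^ 2)‖
      ≤ if (NT r (h / y ^ 2) M).card ≤ K then 1 else Real.exp (-(δ N * K / (4 * (r:ℝ) ^ 2))) := by
  have h0 := rpos hr
  have h1r : (1:ℝ) ≤ r := by have := r2 hr; linarith
  set H : ℝ := h * ((r:ℝ) ^ n - (r:ℝ) ^ m) with hH
  have hz : ∀ k : ℕ, ee (-(H * 0 / (r:ℝ) ^ (k + 1)) / y ^ 2) = 1 := by
    intro k; simp [ee_zero]
  simp only [hz, mul_one]
  -- exponents
  let c : ℕ → ℝ := fun k => if (k < n ∧ n - 1 - k ∈ NT r (h / y ^ 2) M)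
    then δ N / (4 * (r:ℝ) ^ 2) else 0
  have hfac : ∀ k ∈ Finset.Ico (n - M) (n + M),
      ‖(δ k : ℂ) * ee (-(H / (r:ℝ) ^ (k + 1)) / y ^ 2) + (1 - δ k)‖ ≤ Real.exp (-(c k)) := by
    intro k hk
    rw [Finset.mem_Ico] at hk
    by_cases hc : (k < n ∧ n - 1 - k ∈ NT r (h / y ^ 2) M)
    · have hck : c k = δ N / (4 * (r:ℝ) ^ 2) := if_pos hc
      rw [hck]
      obtain ⟨hkn, hq⟩ := hc
      set q := n - 1 - k with hqdef
      rw [NT, Finset.mem_filter, Finset.mem_range] at hq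
      obtain ⟨hqM, hq⟩ := hq
      set β : ℝ := h / y ^ 2 with hβ
      have hβ0 : 0 ≤ β := by positivity
      have hβh : β ≤ h := by
        apply div_le_self (by positivity)
        exact one_le_pow₀ hy1
      have hθ : -(H / (r:ℝ) ^ (k + 1)) / y ^ 2
          = -((r:ℝ) ^ q * β - (r:ℝ) ^ q * β * ((r:ℝ) ^ m / (r:ℝ) ^ n)) := by
        have hn : (r:ℝ) ^ n = (r:ℝ) ^ q * (r:ℝ) ^ (k + 1) := by
          rw [← pow_add]; congr 1; omega
        rw [hH, hβ]
        have hkpos : (r:ℝ) ^ (k + 1) ≠ 0 := by positivity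
        have hqpos : (r:ℝ) ^ q ≠ 0 := by positivity
        rw [hn]
        field_simp
      have hsmall : |(r:ℝ) ^ q * β * ((r:ℝ) ^ m / (r:ℝ) ^ n)| ≤ 1 / (4 * r) := by
        rw [abs_of_nonneg (by positivity)]
        have e1 : (r:ℝ) ^ q * β * ((r:ℝ) ^ m / (r:ℝ) ^ n)
            = β * ((r:ℝ) ^ (q + m) / (r:ℝ) ^ n) := by
          rw [pow_add]; ring
        rw [e1]
        have e2 : (r:ℝ) ^ (q + m) / (r:ℝ) ^ n ≤ 1 / (r:ℝ) ^ (2 * M + 1) := by
          rw [div_le_div_iff₀ (by positivity) (by positivity), one_mul, ← pow_add]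
          apply pow_le_pow_right₀ h1r
          omega
        calc β * ((r:ℝ) ^ (q + m) / (r:ℝ) ^ n) ≤ h * (1 / (r:ℝ) ^ (2 * M + 1)) := by gcongr
          _ ≤ 1 / (4 * r) := by
            rw [mul_one_div, div_le_div_iff₀ (by positivity) (by positivity), pow_succ]
            have e3 : (4 * h : ℝ) ≤ (r:ℝ) ^ (2 * M) := by exact_mod_cast hM
            nlinarith
      have hκ : ∀ z : ℤ, 1 / (4 * (r:ℝ)) ≤ |-(H / (r:ℝ) ^ (k + 1)) / y ^ 2 - z| := by
        intro z
        rw [hθ]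
        have e1 : |(r:ℝ) ^ q * β - round ((r:ℝ) ^ q * β)| ≤ |(r:ℝ) ^ q * β - ((-z : ℤ) : ℝ)| :=
          round_le _ _
        have e2 : -((r:ℝ) ^ q * β - (r:ℝ) ^ q * β * ((r:ℝ) ^ m / (r:ℝ) ^ n)) - (z:ℝ)
            = -((r:ℝ) ^ q * β - ((-z : ℤ) : ℝ)) + (r:ℝ) ^ q * β * ((r:ℝ) ^ m / (r:ℝ) ^ n) := by
          push_cast; ring
        rw [e2]
        have e3 := abs_sub_abs_le_abs_sub ((r:ℝ) ^ q * β - ((-z : ℤ) : ℝ))
          ((r:ℝ) ^ q * β * ((r:ℝ) ^ m / (r:ℝ) ^ n))
        have e4 : |-((r:ℝ) ^ q * β - ((-z : ℤ) : ℝ)) + (r:ℝ) ^ q * β * ((r:ℝ) ^ m / (r:ℝ) ^ n)|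
            = |(r:ℝ) ^ q * β - ((-z : ℤ) : ℝ) - (r:ℝ) ^ q * β * ((r:ℝ) ^ m / (r:ℝ) ^ n)| := by
          rw [← abs_neg]; congr 1; ring
        rw [e4]
        have e5 : 1 / (2 * (r:ℝ)) - 1 / (4 * (r:ℝ)) = 1 / (4 * (r:ℝ)) := by field_simp; norm_num
        linarith
      have hδk : δ N ≤ δ k := hδ.out.anti (by omega)
      refine (factor_bound (δ k) (1 / (4 * (r:ℝ))) _ (hδ.out.pos k).le (hδ.out.half k)
        (by positivity) hκ).trans ?_
      apply Real.exp_le_exp.2
      rw [neg_le_neg_iff]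
      calc δ N / (4 * (r:ℝ) ^ 2) ≤ δ k / (4 * (r:ℝ) ^ 2) := by gcongr
        _ = 4 * δ k * (1 / (4 * (r:ℝ))) ^ 2 := by field_simp
    · have hck : c k = 0 := if_neg hc
      rw [hck, neg_zero, Real.exp_zero]
      refine (norm_add_le _ _).trans ?_
      rw [norm_mul, ee_norm, mul_one]
      have e1 : ‖(δ k : ℂ)‖ = δ k := by
        rw [Complex.norm_real, Real.norm_of_nonneg (hδ.out.pos k).le]
      have e2 : ‖(1 - (δ k : ℂ))‖ = 1 - δ k := by
        have : (1 - (δ k : ℂ)) = ((1 - δ k : ℝ) : ℂ) := by push_cast; ring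
        rw [this, Complex.norm_real, Real.norm_of_nonneg]
        have := hδ.out.half k; linarith
      rw [e1, e2]
      linarith
  have hle : ∏ k ∈ Finset.Ico (n - M) (n + M),
      ‖(δ k : ℂ) * ee (-(H / (r:ℝ) ^ (k + 1)) / y ^ 2) + (1 - δ k)‖
      ≤ Real.exp (-(∑ k ∈ Finset.Ico (n - M) (n + M), c k)) := by
    rw [← Finset.sum_neg_distrib, Real.exp_sum]
    exact Finset.prod_le_prod (fun k _ => norm_nonneg _) hfac
  refine hle.trans ?_
  have hc0 : ∀ k, 0 ≤ c k := by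
    intro k
    simp only [c]
    split_ifs
    · have := hδ.out.pos N
      positivity
    · exact le_rfl
  split_ifs with hK
  · rw [← Real.exp_zero]
    apply Real.exp_le_exp.2
    have := Finset.sum_nonneg (s := Finset.Ico (n - M) (n + M)) (fun k _ => hc0 k)
    linarith
  · apply Real.exp_le_exp.2
    rw [neg_le_neg_iff]
    rw [not_le] at hK
    have hsub : (NT r (h / y ^ 2) M).image (fun q => n - 1 - q) ⊆ Finset.Ico (n - M) (n + M) := by
      intro k hk
      rw [Finset.mem_image] at hk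
      obtain ⟨q, hq, rfl⟩ := hk
      rw [NT, Finset.mem_filter, Finset.mem_range] at hq
      rw [Finset.mem_Ico]
      have := hq.1
      omega
    have hcard : ((NT r (h / y ^ 2) M).image (fun q => n - 1 - q)).card
        = (NT r (h / y ^ 2) M).card := by
      apply Finset.card_image_of_injOn
      intro q hq q' hq' hqq
      rw [Finset.mem_coe, NT, Finset.mem_filter, Finset.mem_range] at hq hq'
      simp only at hqq
      have := hq.1
      have := hq'.1
      omega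
    calc δ N * K / (4 * (r:ℝ) ^ 2) ≤ δ N * ((NT r (h / y ^ 2) M).card) / (4 * (r:ℝ) ^ 2) := by
          have := (hδ.out.pos N).le
          gcongr
      _ = ∑ k ∈ (NT r (h / y ^ 2) M).image (fun q => n - 1 - q), δ N / (4 * (r:ℝ) ^ 2) := by
          rw [Finset.sum_const, hcard, nsmul_eq_mul]; ring
      _ = ∑ k ∈ (NT r (h / y ^ 2) M).image (fun q => n - 1 - q), c k := by
          refine Finset.sum_congr rfl fun k hk => ?_
          rw [Finset.mem_image] at hk
          obtain ⟨q, hq, rfl⟩ := hk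
          have hq' := hq
          rw [NT, Finset.mem_filter, Finset.mem_range] at hq'
          have hqM := hq'.1
          simp only [c]
          rw [if_pos]
          refine ⟨by omega, ?_⟩
          have : n - 1 - (n - 1 - q) = q := by omega
          rw [this]; exact hq
      _ ≤ ∑ k ∈ Finset.Ico (n - M) (n + M), c k :=
          Finset.sum_le_sum_of_subset_of_nonneg hsub (fun k _ _ => hc0 k)

theorem measurable_Bad (h P M K : ℕ) : MeasurableSet (Bad r h P M K) := by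
  have h1 : Bad r h P M K = (pre P) ⁻¹' {s | (NT r (h / (yT r (ext s) P) ^ 2) M).card ≤ K} := by
    ext ω
    simp only [Bad, Set.mem_preimage, Set.mem_ofPred_eq, yT_ext]
  rw [h1]
  exact measurable_pre P (Set.toFinite _).measurableSet

/-- main oscillation estimate -/
theorem main_est (hr : 2 ≤ r) (h m n N M K : ℕ) (hmn : m + 3 * M ≤ n) (hnN : n ≤ N)
    (hM : 4 * h ≤ r ^ (2 * M)) :
    ‖∫ ω, ee ((h * ((r:ℝ) ^ n - (r:ℝ) ^ m)) / yy r ω) ∂(mu δ)‖
      ≤ 4 * Real.pi * h / (r:ℝ) ^ M + (Real.exp (-(δ N * K / (4 * (r:ℝ) ^ 2)))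
        + (mu δ).real (Bad r h (n - M) M K)) := by
  classical
  have h0 := rpos hr
  set H : ℝ := h * ((r:ℝ) ^ n - (r:ℝ) ^ m) with hH
  set P := n - M with hP
  set Q := n + M with hQ
  have hPQ : P ≤ Q := by omega
  let F : (Fin P → Bool) → ℂ := fun s => ee (H / yT r (ext s) P)
  let g : (Fin P → Bool) → ℕ → Bool → ℂ := fun s k b =>
    ee (-(H * (if b then 1 else 0) / (r:ℝ) ^ (k + 1)) / (yT r (ext s) P) ^ 2)
  set E₁ : ℝ := Real.exp (-(δ N * K / (4 * (r:ℝ) ^ 2))) with hE₁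
  let B : (Fin P → Bool) → ℝ := fun s =>
    if (NT r (h / (yT r (ext s) P) ^ 2) M).card ≤ K then 1 else E₁
  have hG : ∀ ω : ℕ → Bool, F (pre P ω) * ∏ k ∈ Finset.Ico P Q, g (pre P ω) k (ω k)
      = ee (H / yT r ω P) * ∏ k ∈ Finset.Ico P Q,
        ee (-(H * dig ω k / (r:ℝ) ^ (k + 1)) / (yT r ω P) ^ 2) := by
    intro ω
    simp only [F, g, yT_ext, dig]
  -- measurability
  have hm1 : Measurable (fun ω : ℕ → Bool => ee (H / yy r ω)) :=
    measurable_ee.comp (measurable_const.div (measurable_yy hr))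
  have hm2 : Measurable (fun ω : ℕ → Bool => ee (H / yT r ω P) * ∏ k ∈ Finset.Ico P Q,
        ee (-(H * dig ω k / (r:ℝ) ^ (k + 1)) / (yT r ω P) ^ 2)) := by
    apply Measurable.mul
    · exact measurable_ee.comp (measurable_const.div (measurable_yT P))
    · apply Finset.measurable_prod
      intro k _
      apply measurable_ee.comp
      exact (((measurable_const.mul (measurable_dig k)).div_const _).neg).div
        ((measurable_yT P).pow_const 2)
  have hi1 : Integrable (fun ω : ℕ → Bool => ee (H / yy r ω)) (mu δ) :=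
    Integrable.of_bound hm1.aestronglyMeasurable 1
      (Filter.Eventually.of_forall fun ω => (ee_norm _).le)
  have hi2 : Integrable (fun ω : ℕ → Bool => ee (H / yT r ω P) * ∏ k ∈ Finset.Ico P Q,
        ee (-(H * dig ω k / (r:ℝ) ^ (k + 1)) / (yT r ω P) ^ 2)) (mu δ) := by
    refine Integrable.of_bound hm2.aestronglyMeasurable 1
      (Filter.Eventually.of_forall fun ω => ?_)
    rw [norm_mul, norm_prod, ee_norm, one_mul]
    simp [ee_norm]
  -- first comparison
  have hcmp : ‖(∫ ω, ee (H / yy r ω) ∂(mu δ)) - ∫ ω, F (pre P ω) *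
      ∏ k ∈ Finset.Ico P Q, g (pre P ω) k (ω k) ∂(mu δ)‖ ≤ 4 * Real.pi * h / (r:ℝ) ^ M := by
    simp only [hG]
    rw [← integral_sub hi1 hi2]
    refine (norm_integral_le_of_norm_le_const (C := 4 * Real.pi * h / (r:ℝ) ^ M)
      (Filter.Eventually.of_forall fun ω => ?_)).trans ?_
    · exact lin_est hr h m n M hmn ω
    · simp
  -- second: the product formula
  have hW0 : ∀ s : Fin P → Bool, 0 ≤ ∏ k ∈ Finset.range P, (if ext s k then δ k else 1 - δ k : ℝ) := by
    intro s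
    apply Finset.prod_nonneg
    intro k _
    split_ifs
    · exact (hδ.out.pos k).le
    · have := hδ.out.half k; linarith
  have hsecond : ‖∫ ω, F (pre P ω) * ∏ k ∈ Finset.Ico P Q, g (pre P ω) k (ω k) ∂(mu δ)‖
      ≤ ∑ s : Fin P → Bool, (∏ k ∈ Finset.range P, (if ext s k then δ k else 1 - δ k : ℝ)) * B s := by
    rw [prefix_int P Q hPQ F g]
    refine (norm_sum_le _ _).trans ?_
    refine Finset.sum_le_sum fun s _ => ?_
    rw [norm_mul, norm_mul]
    have h1 : ‖(∏ k ∈ Finset.range P, (if ext s k then δ k else 1 - δ k : ℝ) : ℂ)‖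
        = ∏ k ∈ Finset.range P, (if ext s k then δ k else 1 - δ k : ℝ) := by
      rw [← Complex.ofReal_prod, Complex.norm_real, Real.norm_of_nonneg (hW0 s)]
    rw [h1]
    apply mul_le_mul_of_nonneg_left _ (hW0 s)
    simp only [F, ee_norm, one_mul]
    rw [norm_prod]
    have h2 := prod_est (δ := δ) hr h m n N M K hmn hnN hM (yT r (ext s) P)
      (one_le_yT hr _ _)
    simp only [g, if_true]
    exact h2
  -- third: back to the measure
  have hthird : ∑ s : Fin P → Bool, (∏ k ∈ Finset.range P, (if ext s k then δ k else 1 - δ k : ℝ)) * B s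
      = ∫ ω, B (pre P ω) ∂(mu δ) := by
    have h1 := prefix_int (δ := δ) P P le_rfl (fun s => (B s : ℂ)) (fun _ _ _ => 1)
    simp only [Finset.Ico_self, Finset.prod_empty, mul_one] at h1
    have h2 : ∫ ω, (B (pre P ω) : ℂ) ∂(mu δ) = ((∫ ω, B (pre P ω) ∂(mu δ) : ℝ) : ℂ) :=
      integral_complex_ofReal
    rw [h2] at h1
    apply Complex.ofReal_injective
    rw [h1]
    push_cast
    rfl
  have hfourth : ∫ ω, B (pre P ω) ∂(mu δ) ≤ E₁ + (mu δ).real (Bad r h P M K) := by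
    have hE0 : 0 ≤ E₁ := (Real.exp_pos _).le
    have hle : ∀ ω : ℕ → Bool, B (pre P ω) ≤ E₁ + (Bad r h P M K).indicator (fun _ => (1:ℝ)) ω := by
      intro ω
      simp only [B, yT_ext]
      by_cases hb : ω ∈ Bad r h P M K
      · rw [Set.indicator_of_mem hb]
        have hb' : (NT r (h / yT r ω P ^ 2) M).card ≤ K := hb
        rw [if_pos hb']
        linarith
      · rw [Set.indicator_of_notMem hb]
        have hb' : ¬ (NT r (h / yT r ω P ^ 2) M).card ≤ K := hb
        rw [if_neg hb']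
        linarith
    have hBm : Measurable (fun ω : ℕ → Bool => B (pre P ω)) :=
      (measurable_of_countable B).comp (measurable_pre P)
    have hBi : Integrable (fun ω : ℕ → Bool => B (pre P ω)) (mu δ) := by
      refine Integrable.of_bound hBm.aestronglyMeasurable (1 + E₁)
        (Filter.Eventually.of_forall fun ω => ?_)
      simp only [B]
      split_ifs
      · rw [norm_one]; linarith
      · rw [Real.norm_of_nonneg hE0]; linarith
    have hind : Integrable (fun ω => (Bad r h P M K).indicator (fun _ => (1:ℝ)) ω) (mu δ) :=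
      (integrable_const (1:ℝ)).indicator (measurable_Bad h P M K)
    calc ∫ ω, B (pre P ω) ∂(mu δ)
        ≤ ∫ ω, (E₁ + (Bad r h P M K).indicator (fun _ => (1:ℝ)) ω) ∂(mu δ) :=
          integral_mono hBi ((integrable_const _).add hind) hle
      _ = E₁ + (mu δ).real (Bad r h P M K) := by
          rw [integral_add (integrable_const _) hind, integral_const,
            integral_indicator_const _ (measurable_Bad h P M K)]
          simp
  calc ‖∫ ω, ee (H / yy r ω) ∂(mu δ)‖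
      = ‖((∫ ω, ee (H / yy r ω) ∂(mu δ)) - ∫ ω, F (pre P ω) *
          ∏ k ∈ Finset.Ico P Q, g (pre P ω) k (ω k) ∂(mu δ)) + ∫ ω, F (pre P ω) *
          ∏ k ∈ Finset.Ico P Q, g (pre P ω) k (ω k) ∂(mu δ)‖ := by rw [sub_add_cancel]
    _ ≤ _ := (norm_add_le _ _).trans (add_le_add hcmp
          (hsecond.trans (hthird.le.trans hfourth)))

end

end Pool.Agent.Lib.Helper35
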