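import Mathlib
import Pool.Agent.Lib.Helper35.Est
set_option autoImplicit false
open MeasureTheory Filter Topology ProbabilityTheory

namespace Pool.Agent.Lib.Helper35

noncomputable section

variable {r : ℕ} {δ : ℕ → ℝ} [hδ : Fact (Adm δ)]

theorem ee_conj (t : ℝ) : (starRingEnd ℂ) (ee t) = ee (-t) := by
  unfold ee
  rw [← Complex.exp_conj]
  congr 1
  rw [map_mul, Complex.conj_I, Complex.conj_ofReal]
  push_cast
  ring

/-- the error bound -/
def Aerr (δ : ℕ → ℝ) (r h N M K : ℕ) : ℝ :=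
  4 * Real.pi * h / (r:ℝ) ^ M + (Real.exp (-(δ N * K / (4 * (r:ℝ) ^ 2)))
    + 11 * ((h + 1) * ((2 * r + 1) * (M + 1)) ^ K : ℕ) * ∏ k ∈ Finset.range M, (1 - δ k))

theorem Aerr_nonneg (hr : 2 ≤ r) (h N M K : ℕ) : 0 ≤ Aerr δ r h N M K := by
  unfold Aerr
  have h0 := rpos hr
  have h1 := Real.pi_pos
  have h2 : 0 ≤ ∏ k ∈ Finset.range M, (1 - δ k) := by
    apply Finset.prod_nonneg
    intro k _
    have := hδ.out.half k
    linarith
  positivity

theorem corr_est (hr : 2 ≤ r) (h : ℕ) (hh : 1 ≤ h) (m n N M K : ℕ) (hmn : m + 3 * M ≤ n)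
    (hnN : n ≤ N) (hM : 4 * h ≤ r ^ (2 * M)) :
    ‖∫ ω, ee ((h * ((r:ℝ) ^ n - (r:ℝ) ^ m)) / yy r ω) ∂(mu δ)‖ ≤ Aerr δ r h N M K := by
  refine (main_est hr h m n N M K hmn hnN hM).trans ?_
  unfold Aerr
  gcongr
  have h1 := prob_bad (δ := δ) hr h hh M (n - M) K (by omega)
  rw [Measure.real]
  refine ENNReal.toReal_le_of_le_ofReal ?_ h1
  have h2 : 0 ≤ ∏ k ∈ Finset.range M, (1 - δ k) := by
    apply Finset.prod_nonneg
    intro k _
    have := hδ.out.half k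
    linarith
  positivity

theorem corr_est' (hr : 2 ≤ r) (h : ℕ) (hh : 1 ≤ h) (m n N M K : ℕ) (hmn : n + 3 * M ≤ m)
    (hmN : m ≤ N) (hM : 4 * h ≤ r ^ (2 * M)) :
    ‖∫ ω, ee ((h * ((r:ℝ) ^ n - (r:ℝ) ^ m)) / yy r ω) ∂(mu δ)‖ ≤ Aerr δ r h N M K := by
  have h1 := corr_est (δ := δ) hr h hh n m N M K hmn hmN hM
  have h2 : ∀ ω : ℕ → Bool, ee ((h * ((r:ℝ) ^ n - (r:ℝ) ^ m)) / yy r ω)
      = (starRingEnd ℂ) (ee ((h * ((r:ℝ) ^ m - (r:ℝ) ^ n)) / yy r ω)) := by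
    intro ω
    rw [ee_conj]
    congr 1
    ring
  simp only [h2]
  rw [integral_conj, RCLike.norm_conj]
  exact h1

theorem second_moment (hr : 2 ≤ r) (h : ℕ) (hh : 1 ≤ h) (N M K : ℕ) (hN : 1 ≤ N)
    (hM : 4 * h ≤ r ^ (2 * M)) :
    ∫ ω, (‖∑ i ∈ Finset.range N, ee (h * (r:ℝ) ^ i / yy r ω)‖ / N) ^ 2 ∂(mu δ)
      ≤ 6 * M / N + Aerr δ r h N M K := by
  classical
  have hNpos : (0:ℝ) < N := by exact_mod_cast hN
  set A := Aerr δ r h N M K with hA
  have hA0 : 0 ≤ A := Aerr_nonneg hr h N M K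
  have hmeas : ∀ i j : ℕ, Measurable (fun ω : ℕ → Bool =>
      ee ((h * ((r:ℝ) ^ i - (r:ℝ) ^ j)) / yy r ω)) := fun i j =>
    measurable_ee.comp (measurable_const.div (measurable_yy hr))
  have hint : ∀ i j : ℕ, Integrable (fun ω : ℕ → Bool =>
      ee ((h * ((r:ℝ) ^ i - (r:ℝ) ^ j)) / yy r ω)) (mu δ) := fun i j =>
    Integrable.of_bound (hmeas i j).aestronglyMeasurable 1
      (Filter.Eventually.of_forall fun ω => (ee_norm _).le)
  have hpt : ∀ ω : ℕ → Bool, (((‖∑ i ∈ Finset.range N, ee (h * (r:ℝ) ^ i / yy r ω)‖ ^ 2 : ℝ)) : ℂ)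
      = ∑ i ∈ Finset.range N, ∑ j ∈ Finset.range N,
        ee ((h * ((r:ℝ) ^ i - (r:ℝ) ^ j)) / yy r ω) := by
    intro ω
    rw [Complex.ofReal_pow, ← Complex.mul_conj', map_sum, Finset.sum_mul_sum]
    refine Finset.sum_congr rfl fun i _ => Finset.sum_congr rfl fun j _ => ?_
    rw [ee_conj, ← ee_add]
    congr 1
    ring
  have hI : ((∫ ω, ‖∑ i ∈ Finset.range N, ee (h * (r:ℝ) ^ i / yy r ω)‖ ^ 2 ∂(mu δ) : ℝ) : ℂ)
      = ∑ i ∈ Finset.range N, ∑ j ∈ Finset.range N,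
        ∫ ω, ee ((h * ((r:ℝ) ^ i - (r:ℝ) ^ j)) / yy r ω) ∂(mu δ) := by
    rw [← integral_complex_ofReal]
    simp only [hpt]
    rw [integral_finsetSum _ (fun i _ => integrable_finsetSum _ (fun j _ => hint i j))]
    refine Finset.sum_congr rfl fun i _ => ?_
    rw [integral_finsetSum _ (fun j _ => hint i j)]
  have hI0 : 0 ≤ ∫ ω, ‖∑ i ∈ Finset.range N, ee (h * (r:ℝ) ^ i / yy r ω)‖ ^ 2 ∂(mu δ) :=
    integral_nonneg fun ω => by positivity
  have hbound : ∫ ω, ‖∑ i ∈ Finset.range N, ee (h * (r:ℝ) ^ i / yy r ω)‖ ^ 2 ∂(mu δ)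
      ≤ N * (6 * M + N * A) := by
    have h1 : ∫ ω, ‖∑ i ∈ Finset.range N, ee (h * (r:ℝ) ^ i / yy r ω)‖ ^ 2 ∂(mu δ)
        = ‖((∫ ω, ‖∑ i ∈ Finset.range N, ee (h * (r:ℝ) ^ i / yy r ω)‖ ^ 2 ∂(mu δ) : ℝ) : ℂ)‖ := by
      rw [Complex.norm_real, Real.norm_of_nonneg hI0]
    rw [h1, hI]
    refine (norm_sum_le _ _).trans ?_
    have h2 : ∀ i ∈ Finset.range N, ‖∑ j ∈ Finset.range N,
        ∫ ω, ee ((h * ((r:ℝ) ^ i - (r:ℝ) ^ j)) / yy r ω) ∂(mu δ)‖ ≤ 6 * M + N * A := by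
      intro i hi
      rw [Finset.mem_range] at hi
      refine (norm_sum_le _ _).trans ?_
      have h3 : ∀ j ∈ Finset.range N, ‖∫ ω, ee ((h * ((r:ℝ) ^ i - (r:ℝ) ^ j)) / yy r ω) ∂(mu δ)‖
          ≤ (if (j < i + 3 * M ∧ i < j + 3 * M) then 1 else 0) + A := by
        intro j hj
        rw [Finset.mem_range] at hj
        split_ifs with hc
        · have h4 : ‖∫ ω, ee ((h * ((r:ℝ) ^ i - (r:ℝ) ^ j)) / yy r ω) ∂(mu δ)‖ ≤ 1 := by
            refine (norm_integral_le_of_norm_le_const (C := 1)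
              (Filter.Eventually.of_forall fun ω => (ee_norm _).le)).trans ?_
            simp
          linarith
        · rw [zero_add]
          by_cases h5 : i + 3 * M ≤ j
          · exact corr_est' hr h hh j i N M K h5 hj.le hM
          · exact corr_est hr h hh j i N M K (by omega) hi.le hM
      refine (Finset.sum_le_sum h3).trans ?_
      rw [Finset.sum_add_distrib, Finset.sum_const, Finset.card_range, nsmul_eq_mul]
      gcongr
      rw [← Finset.sum_filter, Finset.sum_const, nsmul_eq_mul, mul_one]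
      have h6 : ((Finset.range N).filter (fun j => j < i + 3 * M ∧ i < j + 3 * M)).card ≤ 6 * M := by
        have h7 : (Finset.range N).filter (fun j => j < i + 3 * M ∧ i < j + 3 * M)
            ⊆ Finset.Ico (i + 1 - 3 * M) (i + 3 * M) := by
          intro j hj
          rw [Finset.mem_filter] at hj
          rw [Finset.mem_Ico]
          omega
        refine (Finset.card_le_card h7).trans ?_
        rw [Nat.card_Ico]
        omega
      exact_mod_cast h6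
    refine (Finset.sum_le_sum h2).trans ?_
    rw [Finset.sum_const, Finset.card_range, nsmul_eq_mul]
  have hdiv : ∀ ω : ℕ → Bool, (‖∑ i ∈ Finset.range N, ee (h * (r:ℝ) ^ i / yy r ω)‖ / N) ^ 2
      = ‖∑ i ∈ Finset.range N, ee (h * (r:ℝ) ^ i / yy r ω)‖ ^ 2 / (N:ℝ) ^ 2 := by
    intro ω; rw [div_pow]
  simp only [hdiv]
  rw [integral_div]
  rw [div_le_iff₀ (by positivity)]
  refine hbound.trans (le_of_eq ?_)
  field_simp

/-- Subsequence to full sequence. -/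
theorem subseq_lim (s : ℕ → ℝ) (h0 : ∀ N, 0 ≤ s N)
    (hinc : ∀ N N' : ℕ, N ≤ N' → s N' ≤ s N + ((N' : ℝ) - N))
    (hlim : Tendsto (fun j : ℕ => s (j ^ 32) / ((j ^ 32 : ℕ) : ℝ)) atTop (𝓝 0)) :
    Tendsto (fun N : ℕ => s N / (N : ℝ)) atTop (𝓝 0) := by
  -- j N = greatest j with j^32 ≤ N
  let jj : ℕ → ℕ := fun N => Nat.findGreatest (fun j => j ^ 32 ≤ N) N
  have hj1 : ∀ N, (jj N) ^ 32 ≤ N := by
    intro N
    exact Nat.findGreatest_spec (P := fun j => j ^ 32 ≤ N) (m := 0) (Nat.zero_le N) (by simp)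
  have hj2 : ∀ N, N < (jj N + 1) ^ 32 := by
    intro N
    by_contra hcon
    rw [not_lt] at hcon
    have h3 : jj N + 1 ≤ N := le_trans (Nat.le_self_pow (by norm_num) _) hcon
    have h4 := Nat.le_findGreatest (P := fun j => j ^ 32 ≤ N) h3 hcon
    change jj N + 1 ≤ jj N at h4
    omega
  have hjtop : Tendsto jj atTop atTop := by
    rw [tendsto_atTop_atTop]
    intro b
    refine ⟨b ^ 32, fun N hN => ?_⟩
    have h3 : b ≤ N := le_trans (Nat.le_self_pow (by norm_num) _) hN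
    exact Nat.le_findGreatest (P := fun j => j ^ 32 ≤ N) h3 hN
  have hlim1 := hlim.comp hjtop
  have hratio : Tendsto (fun j : ℕ => (1 + 1 / (j:ℝ)) ^ 32 - 1) atTop (𝓝 0) := by
    have h1 : Tendsto (fun j : ℕ => (1 + 1 / (j:ℝ)) ^ 32 - 1) atTop (𝓝 ((1 + 0) ^ 32 - 1)) :=
      ((tendsto_one_div_atTop_nhds_zero_nat.const_add 1).pow 32).sub_const 1
    simpa using h1
  have hratio1 := hratio.comp hjtop
  have hsum := hlim1.add hratio1
  rw [add_zero] at hsum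
  refine squeeze_zero' (Filter.Eventually.of_forall fun N => by
    have := h0 N; positivity) ?_ hsum
  filter_upwards [hjtop.eventually_ge_atTop 1, eventually_gt_atTop 0] with N hN hN0
  simp only [Function.comp]
  set j := jj N with hj
  have hjpos : (0:ℝ) < j := by exact_mod_cast hN
  have hNpos : (0:ℝ) < N := by exact_mod_cast hN0
  have e1 : ((j:ℝ)) ^ 32 ≤ N := by exact_mod_cast hj1 N
  have e2 : (N:ℝ) ≤ ((j:ℝ) + 1) ^ 32 := by exact_mod_cast (hj2 N).le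
  have e3 := hinc (j ^ 32) N (hj1 N)
  have hjp : (0:ℝ) < (j:ℝ) ^ 32 := by positivity
  push_cast at e3 ⊢
  calc s N / (N:ℝ) ≤ s N / (j:ℝ) ^ 32 := by
        have := h0 N
        gcongr
    _ ≤ (s (j ^ 32) + ((N:ℝ) - (j:ℝ) ^ 32)) / (j:ℝ) ^ 32 := by gcongr
    _ ≤ (s (j ^ 32) + (((j:ℝ) + 1) ^ 32 - (j:ℝ) ^ 32)) / (j:ℝ) ^ 32 := by gcongr
    _ = s (j ^ 32) / (j:ℝ) ^ 32 + ((1 + 1 / (j:ℝ)) ^ 32 - 1) := by
        have h5 : (1 + 1 / (j:ℝ)) ^ 32 = ((j:ℝ) + 1) ^ 32 / (j:ℝ) ^ 32 := by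
          rw [← div_pow]; congr 1; field_simp
        rw [h5]
        field_simp

/-- Borel-Cantelli type statement -/
theorem ae_lim {Ω : Type*} [MeasurableSpace Ω] (P : Measure Ω) (f : ℕ → Ω → ℝ)
    (hf0 : ∀ i ω, 0 ≤ f i ω) (hfi : ∀ i, Integrable (f i) P) (b : ℕ → ℝ) (hb : Summable b)
    (hfb : ∀ᶠ i in atTop, ∫ ω, f i ω ∂P ≤ b i) :
    ∀ᵐ ω ∂P, Tendsto (fun i => f i ω) atTop (𝓝 0) := by
  have hs : Summable (fun i => ∫ ω, f i ω ∂P) := by
    refine Summable.of_norm_bounded_eventually_nat hb ?_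
    filter_upwards [hfb] with i hi
    rw [Real.norm_of_nonneg (integral_nonneg (hf0 i))]
    exact hi
  have h1 : ∑' i, ∫⁻ ω, ENNReal.ofReal (f i ω) ∂P ≠ ⊤ := by
    have h2 : ∀ i, ∫⁻ ω, ENNReal.ofReal (f i ω) ∂P = ENNReal.ofReal (∫ ω, f i ω ∂P) := by
      intro i
      rw [ofReal_integral_eq_lintegral_ofReal (hfi i) (Filter.Eventually.of_forall (hf0 i))]
    simp only [h2]
    rw [← ENNReal.ofReal_tsum_of_nonneg (fun i => integral_nonneg (hf0 i)) hs]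
    exact ENNReal.ofReal_ne_top
  rw [← lintegral_tsum (fun i => (hfi i).aemeasurable.ennreal_ofReal)] at h1
  have h3 := ae_lt_top' (AEMeasurable.tsum
    (fun i => (hfi i).aemeasurable.ennreal_ofReal)) h1
  filter_upwards [h3] with ω hω
  have h4 := ENNReal.tendsto_atTop_zero_of_tsum_ne_top hω.ne
  have h5 := (ENNReal.tendsto_toReal ENNReal.zero_ne_top).comp h4
  simp only [ENNReal.toReal_zero] at h5
  refine h5.congr fun i => ?_
  simp only [Function.comp]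
  exact ENNReal.toReal_ofReal (hf0 i ω)

end

end Pool.Agent.Lib.Helper35
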