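import Mathlib
set_option autoImplicit false
open MeasureTheory Filter Topology

namespace Pool.Agent.Lib.Helper35

/-- Weyl criterion, convergence against continuous functions on the circle. -/
theorem weyl_cont (x : ℕ → ℝ)
    (hx : ∀ h : ℤ, h ≠ 0 → Tendsto (fun N : ℕ =>
      (∑ i ∈ Finset.range N, Complex.exp (2 * Real.pi * Complex.I * h * x i)) / (N : ℂ))
      atTop (𝓝 0))
    (f : C(AddCircle (1:ℝ), ℂ)) :
    Tendsto (fun N : ℕ => (∑ i ∈ Finset.range N, f (x i : AddCircle (1:ℝ))) / (N : ℂ)) atTop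
      (𝓝 (∫ t, f t ∂AddCircle.haarAddCircle)) := by
  -- the fourier monomials
  have hfour : ∀ n : ℤ, Tendsto (fun N : ℕ => (∑ i ∈ Finset.range N,
      (fourier n : C(AddCircle (1:ℝ), ℂ)) (x i : AddCircle (1:ℝ))) / (N : ℂ)) atTop
      (𝓝 (∫ t, (fourier n : C(AddCircle (1:ℝ), ℂ)) t ∂AddCircle.haarAddCircle)) := by
    intro n
    have hint : (∫ t, (fourier n : C(AddCircle (1:ℝ), ℂ)) t ∂AddCircle.haarAddCircle)
        = if n = 0 then 1 else 0 := by
      have h1 := congrFun (fourierCoeff_fourier (T := (1:ℝ)) n) 0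
      unfold fourierCoeff at h1
      simp only [neg_zero, fourier_zero, one_smul] at h1
      rw [h1]
      by_cases hn : n = 0
      · subst hn; simp
      · rw [Pi.single_apply]; simp [hn, eq_comm]
    rw [hint]
    by_cases hn : n = 0
    · subst hn
      simp only [if_true]
      refine tendsto_const_nhds.congr' ?_
      filter_upwards [eventually_gt_atTop 0] with N hN
      simp only [fourier_zero, Finset.sum_const, Finset.card_range, nsmul_eq_mul, mul_one]
      exact (div_self (by exact_mod_cast hN.ne')).symm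
    · simp only [hn, if_false]
      refine (hx n hn).congr ?_
      intro N
      congr 1
      refine Finset.sum_congr rfl fun i _ => ?_
      rw [fourier_coe_apply]
      congr 1
      push_cast
      ring
  -- the span
  have hspan : ∀ p ∈ Submodule.span ℂ (Set.range (fun n : ℤ => (fourier n : C(AddCircle (1:ℝ), ℂ)))),
      Tendsto (fun N : ℕ => (∑ i ∈ Finset.range N, (p : C(AddCircle (1:ℝ), ℂ))
        (x i : AddCircle (1:ℝ))) / (N : ℂ)) atTop
      (𝓝 (∫ t, (p : C(AddCircle (1:ℝ), ℂ)) t ∂AddCircle.haarAddCircle)) := by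
    intro p hp
    have hI : ∀ g : C(AddCircle (1:ℝ), ℂ), Integrable (fun t => g t)
        (AddCircle.haarAddCircle (T := (1:ℝ))) := by
      intro g
      exact g.continuous.integrable_of_hasCompactSupport (HasCompactSupport.of_compactSpace _)
    induction hp using Submodule.span_induction with
    | mem p hp =>
      obtain ⟨n, rfl⟩ := hp
      exact hfour n
    | zero => simp
    | add p q _ _ hp hq =>
      have := hp.add hq
      rw [← integral_add (hI p) (hI q)] at this
      refine this.congr ?_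
      intro N
      simp only [ContinuousMap.add_apply, Finset.sum_add_distrib]
      ring
    | smul c p _ hp =>
      have := hp.const_mul c
      rw [← integral_const_mul] at this
      refine this.congr ?_
      intro N
      simp only [ContinuousMap.smul_apply, smul_eq_mul, ← Finset.mul_sum]
      ring
  -- closure
  rw [Metric.tendsto_atTop]
  intro ε hε
  have hmem : f ∈ (Submodule.span ℂ (Set.range (fun n : ℤ =>
      (fourier n : C(AddCircle (1:ℝ), ℂ))))).topologicalClosure := by
    rw [span_fourier_closure_eq_top]; trivial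
  rw [← SetLike.mem_coe, Submodule.topologicalClosure_coe, Metric.mem_closure_iff] at hmem
  obtain ⟨p, hp, hpf⟩ := hmem (ε / 3) (by positivity)
  obtain ⟨N₀, hN₀⟩ := Metric.tendsto_atTop.1 (hspan p hp) (ε / 3) (by positivity)
  refine ⟨max N₀ 1, fun N hN => ?_⟩
  have hN1 : N₀ ≤ N := le_trans (le_max_left _ _) hN
  have hN2 : 1 ≤ N := le_trans (le_max_right _ _) hN
  have hNpos : (0:ℝ) < N := by exact_mod_cast hN2
  have h1 := hN₀ N hN1
  have hsup : ∀ t, ‖f t - p t‖ ≤ dist f p := by
    intro t
    rw [← dist_eq_norm]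
    exact ContinuousMap.dist_apply_le_dist t
  have h2 : dist ((∑ i ∈ Finset.range N, f (x i : AddCircle (1:ℝ))) / (N : ℂ))
      ((∑ i ∈ Finset.range N, p (x i : AddCircle (1:ℝ))) / (N : ℂ)) ≤ dist f p := by
    rw [dist_eq_norm, ← sub_div, ← Finset.sum_sub_distrib, norm_div]
    rw [Complex.norm_natCast, div_le_iff₀ hNpos]
    calc ‖∑ i ∈ Finset.range N, (f (x i : AddCircle (1:ℝ)) - p (x i : AddCircle (1:ℝ)))‖
        ≤ ∑ i ∈ Finset.range N, ‖f (x i : AddCircle (1:ℝ)) - p (x i : AddCircle (1:ℝ))‖ :=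
          norm_sum_le _ _
      _ ≤ ∑ i ∈ Finset.range N, dist f p := Finset.sum_le_sum fun i _ => hsup _
      _ = dist f p * N := by simp [mul_comm]
  have h3 : dist (∫ t, p t ∂(AddCircle.haarAddCircle (T := (1:ℝ))))
      (∫ t, f t ∂(AddCircle.haarAddCircle (T := (1:ℝ)))) ≤ dist f p := by
    have hI : ∀ g : C(AddCircle (1:ℝ), ℂ), Integrable (fun t => g t)
        (AddCircle.haarAddCircle (T := (1:ℝ))) := by
      intro g
      exact g.continuous.integrable_of_hasCompactSupport (HasCompactSupport.of_compactSpace _)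
    rw [dist_eq_norm, ← integral_sub (hI p) (hI f)]
    refine (norm_integral_le_of_norm_le_const (C := dist f p) ?_).trans ?_
    · refine Filter.Eventually.of_forall fun t => ?_
      rw [norm_sub_rev]
      exact hsup t
    · simp
  calc dist ((∑ i ∈ Finset.range N, f (x i : AddCircle (1:ℝ))) / (N : ℂ))
        (∫ t, f t ∂(AddCircle.haarAddCircle (T := (1:ℝ))))
      ≤ dist ((∑ i ∈ Finset.range N, f (x i : AddCircle (1:ℝ))) / (N : ℂ))
          ((∑ i ∈ Finset.range N, p (x i : AddCircle (1:ℝ))) / (N : ℂ))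
        + dist ((∑ i ∈ Finset.range N, p (x i : AddCircle (1:ℝ))) / (N : ℂ))
          (∫ t, p t ∂(AddCircle.haarAddCircle (T := (1:ℝ))))
        + dist (∫ t, p t ∂(AddCircle.haarAddCircle (T := (1:ℝ))))
          (∫ t, f t ∂(AddCircle.haarAddCircle (T := (1:ℝ)))) := dist_triangle4 _ _ _ _
    _ < ε / 3 + ε / 3 + ε / 3 := by
        have := hpf
        linarith
    _ = ε := by ring

/-- Upper bound for the frequency of visits to a closed ball of the circle. -/
theorem weyl_ball (x : ℕ → ℝ)
    (hx : ∀ h : ℤ, h ≠ 0 → Tendsto (fun N : ℕ =>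
      (∑ i ∈ Finset.range N, Complex.exp (2 * Real.pi * Complex.I * h * x i)) / (N : ℂ))
      atTop (𝓝 0))
    (c ρ η : ℝ) (hρ : 0 ≤ ρ) (hη : 0 < η) :
    ∀ᶠ N : ℕ in atTop,
      (((Finset.range N).filter
        (fun i => ‖((x i - c : ℝ) : AddCircle (1:ℝ))‖ ≤ ρ)).card : ℝ) / (N : ℝ) < 2 * ρ + η := by
  classical
  set ε : ℝ := η / 4 with hε
  have hεpos : 0 < ε := by positivity
  let g : AddCircle (1:ℝ) → ℝ := fun t => max 0 (min 1 ((ρ + ε - ‖t - (c : AddCircle (1:ℝ))‖) / ε))
  have hgc : Continuous g := by fun_prop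
  have hg0 : ∀ t, 0 ≤ g t := fun t => le_max_left _ _
  have hg1 : ∀ t, g t ≤ 1 := fun t => max_le zero_le_one (min_le_left _ _)
  have hgin : ∀ t, ‖t - (c : AddCircle (1:ℝ))‖ ≤ ρ → g t = 1 := by
    intro t ht
    have : (1:ℝ) ≤ (ρ + ε - ‖t - (c : AddCircle (1:ℝ))‖) / ε := by
      rw [le_div_iff₀ hεpos]; linarith
    simp only [g, min_eq_left this]
    simp
  have hgout : ∀ t, ρ + ε < ‖t - (c : AddCircle (1:ℝ))‖ → g t = 0 := by
    intro t ht
    have : (ρ + ε - ‖t - (c : AddCircle (1:ℝ))‖) / ε ≤ 0 := by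
      apply div_nonpos_of_nonpos_of_nonneg _ hεpos.le
      linarith
    simp only [g]
    exact max_eq_left ((min_le_right _ _).trans this)
  let f : C(AddCircle (1:ℝ), ℂ) := ⟨fun t => (g t : ℂ), by fun_prop⟩
  have hconv := weyl_cont x hx f
  have hint : ‖∫ t, f t ∂(AddCircle.haarAddCircle (T := (1:ℝ)))‖ ≤ 2 * ρ + 2 * ε := by
    have h1 : (∫ t, f t ∂(AddCircle.haarAddCircle (T := (1:ℝ))))
        = ((∫ t, g t ∂(AddCircle.haarAddCircle (T := (1:ℝ))) : ℝ) : ℂ) := by
      rw [← integral_complex_ofReal]; rfl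
    rw [h1, Complex.norm_real, Real.norm_of_nonneg (integral_nonneg hg0)]
    have h2 : ∫ t, g t ∂(AddCircle.haarAddCircle (T := (1:ℝ))) ≤
        ∫ t, (Metric.closedBall (c : AddCircle (1:ℝ)) (ρ + ε)).indicator (fun _ => (1:ℝ)) t
          ∂(AddCircle.haarAddCircle (T := (1:ℝ))) := by
      apply integral_mono
      · exact hgc.integrable_of_hasCompactSupport (HasCompactSupport.of_compactSpace _)
      · exact (integrable_const (1:ℝ)).indicator Metric.isClosed_closedBall.measurableSet
      · intro t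
        by_cases ht : t ∈ Metric.closedBall (c : AddCircle (1:ℝ)) (ρ + ε)
        · rw [Set.indicator_of_mem ht]; exact hg1 t
        · rw [Set.indicator_of_notMem ht]
          rw [Metric.mem_closedBall, dist_eq_norm, not_le] at ht
          exact (hgout t ht).le
    refine h2.trans ?_
    rw [integral_indicator_const _ Metric.isClosed_closedBall.measurableSet]
    have h3 : (AddCircle.haarAddCircle (T := (1:ℝ))).real
        (Metric.closedBall (c : AddCircle (1:ℝ)) (ρ + ε)) ≤ 2 * ρ + 2 * ε := by
      have h4 : (volume : Measure (AddCircle (1:ℝ))) = AddCircle.haarAddCircle := by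
        rw [AddCircle.volume_eq_smul_haarAddCircle]; simp
      rw [← h4, Measure.real, AddCircle.volume_closedBall]
      rw [ENNReal.toReal_ofReal (by positivity)]
      exact (min_le_right _ _).trans (by linarith)
    simpa using h3
  have hlt : ‖∫ t, f t ∂(AddCircle.haarAddCircle (T := (1:ℝ)))‖ < 2 * ρ + η := by
    have : 2 * ε < η := by rw [hε]; linarith
    linarith
  filter_upwards [hconv.norm.eventually_lt_const hlt, eventually_gt_atTop 0] with N hN hN0
  refine lt_of_le_of_lt ?_ hN
  rw [norm_div, Complex.norm_natCast]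
  have hNpos : (0:ℝ) < N := by exact_mod_cast hN0
  gcongr
  have h5 : (∑ i ∈ Finset.range N, f (x i : AddCircle (1:ℝ)))
      = ((∑ i ∈ Finset.range N, g (x i : AddCircle (1:ℝ)) : ℝ) : ℂ) := by
    push_cast; rfl
  rw [h5, Complex.norm_real, Real.norm_of_nonneg (Finset.sum_nonneg fun i _ => hg0 _)]
  rw [Finset.card_filter]
  push_cast
  refine Finset.sum_le_sum fun i _ => ?_
  split_ifs with h
  · rw [AddCircle.coe_sub] at h
    rw [hgin _ h]
  · exact hg0 _

end Pool.Agent.Lib.Helper35
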