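import Mathlib
import Pool.Agent.Lib.Helper35.Weyl
set_option autoImplicit false
open MeasureTheory Filter Topology

namespace Pool.Agent.Lib.Helper35

/-- `⌊t r^k⌋` from the digits of `t`. -/
theorem floor_digits (r : ℕ) (hr : 2 ≤ r) (t : ℝ) (k : ℕ) :
    ⌊t * (r : ℝ) ^ k⌋ = (r : ℤ) ^ k * ⌊t⌋ +
      ∑ j ∈ Finset.range k, (⌊t * (r : ℝ) ^ (j + 1)⌋ % (r : ℤ)) * (r : ℤ) ^ (k - 1 - j) := by
  induction k with
  | zero => simp
  | succ k ih =>
    have h1 : ⌊t * (r : ℝ) ^ (k + 1)⌋ = (r : ℤ) * ⌊t * (r : ℝ) ^ k⌋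
        + ⌊t * (r : ℝ) ^ (k + 1)⌋ % (r : ℤ) := by
      have h2 : ⌊t * (r : ℝ) ^ (k + 1)⌋ / (r : ℤ) = ⌊t * (r : ℝ) ^ k⌋ := by
        rw [pow_succ, ← mul_assoc]
        exact Int.mul_natCast_floor_div_cancel (by omega) _
      rw [← h2]
      exact (Int.mul_ediv_add_emod _ _).symm
    rw [h1, ih, Finset.sum_range_succ, mul_add, Finset.mul_sum, add_assoc]
    congr 1
    · ring
    · rw [Nat.add_sub_cancel, Nat.sub_self, pow_zero, mul_one]
      congr 1
      refine Finset.sum_congr rfl fun j hj => ?_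
      rw [Finset.mem_range] at hj
      have : k - j = (k - 1 - j) + 1 := by omega
      rw [this, pow_succ]
      ring

/-- If the digits of `t` in positions `1..k` are `w`, then `t` is in the corresponding arc. -/
theorem arc_of_digits (r : ℕ) (hr : 2 ≤ r) (k : ℕ) (w : Fin k → Fin r) (t : ℝ)
    (h : ∀ j : Fin k, ⌊t * (r : ℝ) ^ ((j : ℕ) + 1)⌋ % (r : ℤ) = ((w j : ℕ) : ℤ)) :
    ‖((t - ((∑ j : Fin k, ((w j : ℕ) : ℝ) * (r : ℝ) ^ (k - 1 - (j : ℕ))) + 1 / 2) / (r : ℝ) ^ k : ℝ)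
      : AddCircle (1:ℝ))‖ ≤ 1 / (2 * (r : ℝ) ^ k) := by
  have hrpos : (0:ℝ) < (r : ℝ) ^ k := by
    have : (0:ℝ) < r := by exact_mod_cast (by omega : 0 < r)
    positivity
  have h1 := floor_digits r hr t k
  rw [Finset.sum_range] at h1
  simp only [h] at h1
  have h2 := Int.floor_le (t * (r : ℝ) ^ k)
  have h3 := Int.lt_floor_add_one (t * (r : ℝ) ^ k)
  rw [h1] at h2 h3
  push_cast at h2 h3
  set W : ℝ := ∑ j : Fin k, ((w j : ℕ) : ℝ) * (r : ℝ) ^ (k - 1 - (j : ℕ)) with hW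
  refine (le_of_eq (UnitAddCircle.norm_eq (x := t - (W + 1 / 2) / (r : ℝ) ^ k))).trans ?_
  refine (round_le _ ⌊t⌋).trans ?_
  have h4 : t - (W + 1 / 2) / (r : ℝ) ^ k - ⌊t⌋
      = (t * (r : ℝ) ^ k - ((r : ℝ) ^ k * ⌊t⌋ + W) - 1 / 2) / (r : ℝ) ^ k := by
    field_simp
    ring
  rw [h4, abs_div, abs_of_pos hrpos, div_le_div_iff₀ hrpos (by positivity)]
  have h5 : |t * (r : ℝ) ^ k - ((r : ℝ) ^ k * ⌊t⌋ + W) - 1 / 2| ≤ 1 / 2 := by
    rw [abs_le]; constructor <;> linarith
  nlinarith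

/-- Weyl criterion for normality in base `r`. -/
theorem normal_of_weyl (r : ℕ) (hr : 2 ≤ r) (x : ℝ)
    (hx : ∀ h : ℕ, 1 ≤ h → Tendsto (fun N : ℕ =>
      (∑ i ∈ Finset.range N,
        Complex.exp (2 * Real.pi * Complex.I * ((h * (x * (r : ℝ) ^ i) : ℝ) : ℂ))) / (N : ℂ))
      atTop (𝓝 0)) (k : ℕ) (w : Fin k → Fin r) :
    Filter.Tendsto
      (fun N : ℕ =>
        ((((Finset.range N).filter
            (fun i => ∀ j : Fin k,
              ⌊x * (r : ℝ) ^ (i + (j : ℕ) + 1)⌋ % (r : ℤ) = ((w j : ℕ) : ℤ))).card : ℝ)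
          / (N : ℝ)))
      Filter.atTop (nhds (1 / (r : ℝ) ^ k)) := by
  classical
  have hrpos : (0:ℝ) < (r : ℝ) ^ k := by
    have : (0:ℝ) < r := by exact_mod_cast (by omega : 0 < r)
    positivity
  -- exponential sums for all nonzero integers
  have hx' : ∀ h : ℤ, h ≠ 0 → Tendsto (fun N : ℕ =>
      (∑ i ∈ Finset.range N, Complex.exp (2 * Real.pi * Complex.I * h *
        ((x * (r : ℝ) ^ i : ℝ) : ℂ))) / (N : ℂ)) atTop (𝓝 0) := by
    intro h hh
    rcases lt_or_gt_of_ne hh with hneg | hpos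
    · have h1 := hx h.natAbs (by omega)
      have h2 : Tendsto (fun N : ℕ => (starRingEnd ℂ) ((∑ i ∈ Finset.range N,
        Complex.exp (2 * Real.pi * Complex.I * ((h.natAbs * (x * (r : ℝ) ^ i) : ℝ) : ℂ)))
          / (N : ℂ))) atTop (𝓝 ((starRingEnd ℂ) 0)) :=
        (Complex.continuous_conj.tendsto 0).comp h1
      rw [map_zero] at h2
      refine h2.congr fun N => ?_
      rw [map_div₀, map_sum]
      congr 1
      · refine Finset.sum_congr rfl fun i _ => ?_
        rw [← Complex.exp_conj]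
        congr 1
        have h3 : ((h.natAbs : ℝ) : ℂ) = -(h : ℂ) := by
          have : (h.natAbs : ℤ) = -h := by omega
          have h4 : ((h.natAbs : ℤ) : ℂ) = ((-h : ℤ) : ℂ) := by rw [this]
          push_cast at h4 ⊢
          simpa using h4
        simp only [map_mul, Complex.conj_I, Complex.conj_ofReal, Complex.ofReal_mul, h3]
        have h5 : (starRingEnd ℂ) (2 : ℂ) = 2 := Complex.conj_ofNat 2
        rw [h5]
        have h6 : (starRingEnd ℂ) (-(h : ℂ)) = -(h : ℂ) := by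
          rw [map_neg, map_intCast]
        rw [h6]
        ring
      · simp
    · have h1 := hx h.natAbs (by omega)
      refine h1.congr fun N => ?_
      congr 1
      refine Finset.sum_congr rfl fun i _ => ?_
      congr 1
      have h3 : ((h.natAbs : ℝ) : ℂ) = (h : ℂ) := by
        have : (h.natAbs : ℤ) = h := by omega
        have h4 : ((h.natAbs : ℤ) : ℂ) = ((h : ℤ) : ℂ) := by rw [this]
        rw [← h4]
        simp only [Int.cast_natCast, Complex.ofReal_natCast]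
      rw [Complex.ofReal_mul, h3]
      ring
  -- frequencies
  let fr : (Fin k → Fin r) → ℕ → ℝ := fun w N =>
    (((Finset.range N).filter
            (fun i => ∀ j : Fin k,
              ⌊x * (r : ℝ) ^ (i + (j : ℕ) + 1)⌋ % (r : ℤ) = ((w j : ℕ) : ℤ))).card : ℝ)
          / (N : ℝ)
  have hupper : ∀ w : Fin k → Fin r, ∀ η : ℝ, 0 < η → ∀ᶠ N : ℕ in atTop,
      fr w N < 1 / (r : ℝ) ^ k + η := by
    intro w η hη
    have h1 := weyl_ball (fun i => x * (r : ℝ) ^ i) hx'
      (((∑ j : Fin k, ((w j : ℕ) : ℝ) * (r : ℝ) ^ (k - 1 - (j : ℕ))) + 1 / 2) / (r : ℝ) ^ k)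
      (1 / (2 * (r : ℝ) ^ k)) η (by positivity) hη
    filter_upwards [h1, eventually_gt_atTop 0] with N hN hN0
    have hNpos : (0:ℝ) < N := by exact_mod_cast hN0
    have h2 : 2 * (1 / (2 * (r : ℝ) ^ k)) = 1 / (r : ℝ) ^ k := by field_simp
    rw [h2] at hN
    refine lt_of_le_of_lt ?_ hN
    simp only [fr]
    gcongr with i hi
    intro hj
    apply arc_of_digits r hr k w
    intro j
    rw [← hj j, mul_assoc, ← pow_add]
    congr 3
  have hsum : ∀ N : ℕ, 0 < N → ∑ w : Fin k → Fin r, fr w N = 1 := by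
    intro N hN
    have hNpos : (0:ℝ) < N := by exact_mod_cast hN
    simp only [fr]
    rw [← Finset.sum_div, div_eq_one_iff_eq hNpos.ne']
    rw [← Nat.cast_sum, Nat.cast_inj]
    have hr0 : 0 < r := by omega
    let F : ℕ → (Fin k → Fin r) := fun i j =>
      ⟨(⌊x * (r : ℝ) ^ (i + (j : ℕ) + 1)⌋ % (r : ℤ)).toNat, by
        have h1 := Int.emod_nonneg ⌊x * (r : ℝ) ^ (i + (j : ℕ) + 1)⌋ (b := (r : ℤ)) (by omega)
        have h2 := Int.emod_lt_of_pos ⌊x * (r : ℝ) ^ (i + (j : ℕ) + 1)⌋ (b := (r : ℤ)) (by omega)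
        omega⟩
    have h3 := Finset.card_eq_sum_card_fiberwise (f := F) (s := Finset.range N)
      (t := (Finset.univ : Finset (Fin k → Fin r))) (fun _ _ => Finset.mem_coe.2 (Finset.mem_univ _))
    rw [Finset.card_range] at h3
    refine Eq.trans ?_ h3.symm
    refine Finset.sum_congr rfl fun w _ => ?_
    congr 1
    refine Finset.filter_congr fun i _ => ?_
    constructor
    · intro h
      funext j
      apply Fin.ext
      simp only [F]
      rw [h j]
      simp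
    · intro h j
      have h4 := congrFun h j
      have h5 := congrArg Fin.val h4
      simp only [F] at h5
      rw [← h5]
      exact (Int.toNat_of_nonneg (Int.emod_nonneg _ (by omega))).symm
  have hcard : (Finset.univ : Finset (Fin k → Fin r)).card = r ^ k := by
    rw [Finset.card_univ, Fintype.card_fun, Fintype.card_fin, Fintype.card_fin]
  rw [Metric.tendsto_atTop']
  intro ε hε
  have hev : ∀ᶠ N : ℕ in atTop, ∀ w : Fin k → Fin r, fr w N < 1 / (r : ℝ) ^ k + ε / (r : ℝ) ^ k := by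
    rw [Filter.eventually_all]
    intro w
    exact hupper w _ (by positivity)
  obtain ⟨N₀, hN₀⟩ := eventually_atTop.1 hev
  refine ⟨N₀, fun N hN => ?_⟩
  have hall := hN₀ N hN.le
  have hNpos : 0 < N := by omega
  have hs := hsum N hNpos
  change dist (fr w N) _ < ε
  rw [Real.dist_eq, abs_lt]
  have hr1 : (1:ℝ) ≤ (r : ℝ) ^ k := by
    apply one_le_pow₀
    exact_mod_cast (by omega : 1 ≤ r)
  constructor
  · -- lower bound
    have h1 : ∑ w' ∈ Finset.univ.erase w, fr w' N ≤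
        ∑ w' ∈ Finset.univ.erase w, (1 / (r : ℝ) ^ k + ε / (r : ℝ) ^ k) :=
      Finset.sum_le_sum fun w' _ => (hall w').le
    rw [Finset.sum_const, Finset.card_erase_of_mem (Finset.mem_univ _), hcard, nsmul_eq_mul] at h1
    have h2 := Finset.add_sum_erase Finset.univ (fun w' => fr w' N) (Finset.mem_univ w)
    rw [hs] at h2
    have h3 : ((r ^ k - 1 : ℕ) : ℝ) = (r : ℝ) ^ k - 1 := by
      rw [Nat.cast_sub (by exact Nat.one_le_pow _ _ (by omega))]
      push_cast; ring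
    rw [h3] at h1
    have h4 : ((r : ℝ) ^ k - 1) * (1 / (r : ℝ) ^ k + ε / (r : ℝ) ^ k)
        = 1 + ε - 1 / (r : ℝ) ^ k - ε / (r : ℝ) ^ k := by
      field_simp
      ring
    have h5 : 0 < ε / (r : ℝ) ^ k := by positivity
    linarith
  · have h1 := hall w
    have h2 : ε / (r : ℝ) ^ k ≤ ε := div_le_self hε.le hr1
    linarith

end Pool.Agent.Lib.Helper35
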