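import Mathlib
import Pool.Agent.Lib.Helper35.Moment
import Pool.Agent.Lib.Helper35.Normal
set_option autoImplicit false
open MeasureTheory Filter Topology ProbabilityTheory

namespace Pool.Agent.Lib.Helper35

noncomputable section

/-- eighth root -/
def rt (k : ℕ) : ℝ := √(√(√((k:ℝ) + 1)))

/-- the probabilities -/
def dl (k : ℕ) : ℝ := 1 / (2 * rt k)

theorem one_le_rt (k : ℕ) : 1 ≤ rt k := by
  unfold rt
  have h : (1:ℝ) ≤ (k:ℝ) + 1 := by
    have : (0:ℝ) ≤ k := Nat.cast_nonneg k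
    linarith
  exact Real.one_le_sqrt.2 (Real.one_le_sqrt.2 (Real.one_le_sqrt.2 h))

theorem rt_mono : Monotone rt := by
  intro a b hab
  unfold rt
  gcongr

theorem rt_le (k : ℕ) (c : ℝ) (hc : 0 ≤ c) (h : (k:ℝ) + 1 ≤ c ^ 8) : rt k ≤ c := by
  unfold rt
  rw [Real.sqrt_le_left hc, Real.sqrt_le_left (by positivity), Real.sqrt_le_left (by positivity)]
  calc (k:ℝ) + 1 ≤ c ^ 8 := h
    _ = ((c ^ 2) ^ 2) ^ 2 := by ring

theorem le_rt (k : ℕ) (c : ℝ) (hc : 0 ≤ c) (h : c ^ 8 ≤ (k:ℝ) + 1) : c ≤ rt k := by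
  unfold rt
  apply Real.le_sqrt_of_sq_le
  apply Real.le_sqrt_of_sq_le
  apply Real.le_sqrt_of_sq_le
  calc ((c ^ 2) ^ 2) ^ 2 = c ^ 8 := by ring
    _ ≤ _ := h

theorem dl_adm : Adm dl where
  pos k := by
    have := one_le_rt k
    unfold dl
    positivity
  half k := by
    have := one_le_rt k
    unfold dl
    rw [div_le_div_iff₀ (by positivity) (by norm_num)]
    linarith
  anti := by
    intro a b hab
    have h1 := one_le_rt a
    have h2 := one_le_rt b
    have h3 := rt_mono hab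
    unfold dl
    gcongr

instance : Fact (Adm dl) := ⟨dl_adm⟩

theorem dl_ge (k : ℕ) (c : ℝ) (hc : 0 < c) (h : (k:ℝ) + 1 ≤ c ^ 8) : 1 / (2 * c) ≤ dl k := by
  have := rt_le k c hc.le h
  have h1 := one_le_rt k
  unfold dl
  gcongr

theorem dl_le (k : ℕ) (c : ℝ) (hc : 0 < c) (h : c ^ 8 ≤ (k:ℝ) + 1) : dl k ≤ 1 / (2 * c) := by
  have := le_rt k c hc.le h
  unfold dl
  gcongr

theorem pow32_le (i : ℕ) (hi : 1 ≤ i) : (((i ^ 32 : ℕ) : ℝ)) + 1 ≤ (2 * (i:ℝ) ^ 4) ^ 8 := by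
  have h1 : (1:ℝ) ≤ i := by exact_mod_cast hi
  have h2 : (1:ℝ) ≤ (i:ℝ) ^ 32 := one_le_pow₀ h1
  push_cast
  have h3 : (2 * (i:ℝ) ^ 4) ^ 8 = 256 * (i:ℝ) ^ 32 := by ring
  rw [h3]; linarith

theorem pow16_le (i : ℕ) (hi : 1 ≤ i) : (((i ^ 16 : ℕ) : ℝ)) + 1 ≤ (2 * (i:ℝ) ^ 2) ^ 8 := by
  have h1 : (1:ℝ) ≤ i := by exact_mod_cast hi
  have h2 : (1:ℝ) ≤ (i:ℝ) ^ 16 := one_le_pow₀ h1
  push_cast
  have h3 : (2 * (i:ℝ) ^ 2) ^ 8 = 256 * (i:ℝ) ^ 16 := by ring
  rw [h3]; linarith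

/-- numerical bound for the error -/
theorem Aerr_le (r h i : ℕ) (hr : 2 ≤ r) (hi3 : 3 ≤ i) (hir : 2 * r ≤ i) :
    Aerr dl r h (i ^ 32) (i ^ 16) (i ^ 8) ≤
      4 * Real.pi * h * (1 / 2) ^ i + (Real.exp (-(i * (1 / (16 * (r:ℝ) ^ 2))))
        + 11 * (h + 1) * Real.exp (-(i:ℝ))) := by
  have h0 := rpos hr
  have h2r := r2 hr
  have hi1 : 1 ≤ i := by omega
  have hx3 : (3:ℝ) ≤ i := by exact_mod_cast hi3
  have hx1 : (1:ℝ) ≤ i := by linarith
  unfold Aerr
  have hfirst : 4 * Real.pi * h / (r:ℝ) ^ (i ^ 16) ≤ 4 * Real.pi * h * (1 / 2) ^ i := by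
    rw [div_eq_mul_one_div]
    have := Real.pi_pos
    have e1 : 1 / (r:ℝ) ^ (i ^ 16) ≤ (1 / 2) ^ i := by
      rw [one_div_pow]
      apply one_div_le_one_div_of_le (by positivity)
      calc (2:ℝ) ^ i ≤ (r:ℝ) ^ i := by gcongr
        _ ≤ (r:ℝ) ^ (i ^ 16) := by
          apply pow_le_pow_right₀ (by linarith)
          exact Nat.le_self_pow (by norm_num) i
    gcongr
  have hdN : 1 / (2 * (2 * (i:ℝ) ^ 4)) ≤ dl (i ^ 32) :=
    dl_ge _ _ (by positivity) (pow32_le i hi1)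
  have hdM : 1 / (2 * (2 * (i:ℝ) ^ 2)) ≤ dl (i ^ 16) :=
    dl_ge _ _ (by positivity) (pow16_le i hi1)
  have hsecond : Real.exp (-(dl (i ^ 32) * ((i ^ 8 : ℕ) : ℝ) / (4 * (r:ℝ) ^ 2)))
      ≤ Real.exp (-(i * (1 / (16 * (r:ℝ) ^ 2)))) := by
    apply Real.exp_le_exp.2
    rw [neg_le_neg_iff]
    have e1 : (i:ℝ) / 4 ≤ dl (i ^ 32) * ((i ^ 8 : ℕ) : ℝ) := by
      calc (i:ℝ) / 4 ≤ (i:ℝ) ^ 4 / 4 := by
            gcongr
            exact le_self_pow₀ hx1 (by norm_num)
        _ = 1 / (2 * (2 * (i:ℝ) ^ 4)) * ((i ^ 8 : ℕ) : ℝ) := by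
            push_cast
            field_simp
            norm_num
        _ ≤ dl (i ^ 32) * ((i ^ 8 : ℕ) : ℝ) := by gcongr
    calc (i:ℝ) * (1 / (16 * (r:ℝ) ^ 2)) = (i:ℝ) / 4 / (4 * (r:ℝ) ^ 2) := by
          field_simp; norm_num
      _ ≤ _ := by gcongr
  have hthird : 11 * (((h + 1) * ((2 * r + 1) * (i ^ 16 + 1)) ^ (i ^ 8) : ℕ) : ℝ)
      * ∏ k ∈ Finset.range (i ^ 16), (1 - dl k) ≤ 11 * (h + 1) * Real.exp (-(i:ℝ)) := by
    have e1 : ∏ k ∈ Finset.range (i ^ 16), (1 - dl k) ≤ Real.exp (-((i:ℝ) ^ 14 / 4)) := by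
      have e2 : ∀ k ∈ Finset.range (i ^ 16), (1 - dl k) ≤ Real.exp (-(1 / (4 * (i:ℝ) ^ 2))) := by
        intro k hk
        rw [Finset.mem_range] at hk
        have e3 : dl (i ^ 16) ≤ dl k := dl_adm.anti hk.le
        have e4 := Real.add_one_le_exp (-(1 / (4 * (i:ℝ) ^ 2)))
        have e5 : 1 / (2 * (2 * (i:ℝ) ^ 2)) = 1 / (4 * (i:ℝ) ^ 2) := by congr 1; ring
        rw [e5] at hdM
        linarith
      have e3 := Finset.prod_le_prod (f := fun k => 1 - dl k) (s := Finset.range (i ^ 16))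
        (g := fun _ => Real.exp (-(1 / (4 * (i:ℝ) ^ 2)))) (by
          intro k _
          have := dl_adm.half k
          linarith) e2
      refine e3.trans (le_of_eq ?_)
      rw [Finset.prod_const, Finset.card_range, ← Real.exp_nat_mul]
      congr 1
      push_cast
      field_simp
    have e4 : (((h + 1) * ((2 * r + 1) * (i ^ 16 + 1)) ^ (i ^ 8) : ℕ) : ℝ)
        ≤ (h + 1) * Real.exp (17 * (i:ℝ) ^ 9) := by
      push_cast
      have e5 : (2 * (r:ℝ) + 1) ≤ Real.exp (2 * r) := Real.add_one_le_exp _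
      have e6 : (i:ℝ) ^ 16 + 1 ≤ Real.exp (16 * i) := by
        have e7 : (i:ℝ) ^ 16 + 1 ≤ ((i:ℝ) + 1) ^ 16 := by
          have := pow_le_pow_left₀ (by positivity : (0:ℝ) ≤ i) (by linarith : (i:ℝ) ≤ i + 1) 15
          have e8 : (1:ℝ) ≤ ((i:ℝ) + 1) ^ 15 := one_le_pow₀ (by linarith)
          have e9 : ((i:ℝ) + 1) ^ 16 = i * ((i:ℝ) + 1) ^ 15 + ((i:ℝ) + 1) ^ 15 := by ring
          have e10 : (i:ℝ) ^ 16 = i * (i:ℝ) ^ 15 := by ring
          rw [e9, e10]
          have e11 : (i:ℝ) * (i:ℝ) ^ 15 ≤ i * ((i:ℝ) + 1) ^ 15 := by gcongr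
          linarith
        refine e7.trans ?_
        have e8 : ((i:ℝ) + 1) ^ 16 ≤ (Real.exp i) ^ 16 := by
          gcongr
          exact Real.add_one_le_exp _
        refine e8.trans (le_of_eq ?_)
        rw [← Real.exp_nat_mul]
        congr 1
      have e7 : (2 * (r:ℝ) + 1) * ((i:ℝ) ^ 16 + 1) ≤ Real.exp (17 * i) := by
        calc (2 * (r:ℝ) + 1) * ((i:ℝ) ^ 16 + 1) ≤ Real.exp (2 * r) * Real.exp (16 * i) := by gcongr
          _ = Real.exp (2 * r + 16 * i) := by rw [Real.exp_add]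
          _ ≤ Real.exp (17 * i) := by
            apply Real.exp_le_exp.2
            have : (2 * r : ℝ) ≤ i := by exact_mod_cast hir
            linarith
      have e8 : ((2 * (r:ℝ) + 1) * ((i:ℝ) ^ 16 + 1)) ^ (i ^ 8) ≤ Real.exp (17 * (i:ℝ) ^ 9) := by
        calc ((2 * (r:ℝ) + 1) * ((i:ℝ) ^ 16 + 1)) ^ (i ^ 8) ≤ (Real.exp (17 * i)) ^ (i ^ 8) := by
              gcongr
          _ = Real.exp (17 * (i:ℝ) ^ 9) := by
              rw [← Real.exp_nat_mul]
              congr 1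
              push_cast
              ring
      gcongr
    have e5 : 0 ≤ ∏ k ∈ Finset.range (i ^ 16), (1 - dl k) := by
      apply Finset.prod_nonneg
      intro k _
      have := dl_adm.half k
      linarith
    calc 11 * (((h + 1) * ((2 * r + 1) * (i ^ 16 + 1)) ^ (i ^ 8) : ℕ) : ℝ)
          * ∏ k ∈ Finset.range (i ^ 16), (1 - dl k)
        ≤ 11 * ((h + 1) * Real.exp (17 * (i:ℝ) ^ 9)) * Real.exp (-((i:ℝ) ^ 14 / 4)) := by gcongr
      _ = 11 * (h + 1) * Real.exp (17 * (i:ℝ) ^ 9 - (i:ℝ) ^ 14 / 4) := by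
          rw [sub_eq_add_neg, Real.exp_add]; ring
      _ ≤ 11 * (h + 1) * Real.exp (-(i:ℝ)) := by
          gcongr
          have e6 : (243:ℝ) ≤ (i:ℝ) ^ 5 := by
            calc (243:ℝ) = 3 ^ 5 := by norm_num
              _ ≤ (i:ℝ) ^ 5 := by gcongr
          have e7 : (i:ℝ) ≤ (i:ℝ) ^ 9 := le_self_pow₀ hx1 (by norm_num)
          have e8 : (i:ℝ) ^ 14 = (i:ℝ) ^ 9 * (i:ℝ) ^ 5 := by ring
          have e9 : (0:ℝ) < (i:ℝ) ^ 9 := by positivity
          rw [e8]
          nlinarith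
  have := add_le_add hfirst (add_le_add hsecond hthird)
  push_cast at this ⊢
  exact this

/-- almost sure decay of the exponential sums -/
theorem ae_exp (r : ℕ) (hr : 2 ≤ r) (h : ℕ) (hh : 1 ≤ h) :
    ∀ᵐ ω ∂(mu dl), Tendsto (fun N : ℕ =>
      ‖∑ i ∈ Finset.range N, ee (h * (r:ℝ) ^ i / yy r ω)‖ / (N : ℝ)) atTop (𝓝 0) := by
  have h0 := rpos hr
  let f : ℕ → (ℕ → Bool) → ℝ := fun j ω =>
    (‖∑ i ∈ Finset.range (j ^ 32), ee (h * (r:ℝ) ^ i / yy r ω)‖ / ((j ^ 32 : ℕ) : ℝ)) ^ 2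
  let b : ℕ → ℝ := fun i => 6 * (1 / (i:ℝ) ^ 2) + (4 * Real.pi * h * (1 / 2) ^ i +
    (Real.exp (-(i * (1 / (16 * (r:ℝ) ^ 2)))) + 11 * (h + 1) * Real.exp (-(i:ℝ))))
  have hb : Summable b := by
    apply Summable.add
    · exact (Real.summable_one_div_nat_pow.2 (by norm_num)).mul_left 6
    · apply Summable.add
      · exact summable_geometric_two.mul_left _
      · apply Summable.add
        · have h1 : (fun i : ℕ => Real.exp (-(i * (1 / (16 * (r:ℝ) ^ 2)))))
              = (fun i : ℕ => Real.exp (i * (-(1 / (16 * (r:ℝ) ^ 2))))) := by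
            funext i; congr 1; ring
          rw [h1]
          rw [Real.summable_exp_nat_mul_iff]
          have : 0 < 1 / (16 * (r:ℝ) ^ 2) := by positivity
          linarith
        · apply Summable.mul_left
          have h1 : (fun i : ℕ => Real.exp (-(i:ℝ))) = (fun i : ℕ => Real.exp (i * (-1 : ℝ))) := by
            funext i; congr 1; ring
          rw [h1, Real.summable_exp_nat_mul_iff]
          norm_num
  have hmeas : ∀ N : ℕ, Measurable (fun ω : ℕ → Bool =>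
      ‖∑ i ∈ Finset.range N, ee (h * (r:ℝ) ^ i / yy r ω)‖ / (N : ℝ)) := by
    intro N
    apply Measurable.div_const
    apply Measurable.norm
    apply Finset.measurable_sum
    intro i _
    exact measurable_ee.comp (measurable_const.div (measurable_yy hr))
  have hle1 : ∀ (N : ℕ) (ω : ℕ → Bool),
      ‖∑ i ∈ Finset.range N, ee (h * (r:ℝ) ^ i / yy r ω)‖ / (N : ℝ) ≤ 1 := by
    intro N ω
    rcases Nat.eq_zero_or_pos N with h1 | h1
    · subst h1; simp
    · have hNpos : (0:ℝ) < N := by exact_mod_cast h1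
      rw [div_le_one hNpos]
      refine (norm_sum_le _ _).trans ?_
      simp [ee_norm]
  have hae := ae_lim (mu dl) f (fun i ω => by positivity) (fun i => by
      refine Integrable.of_bound ((hmeas (i ^ 32)).pow_const 2).aestronglyMeasurable 1
        (Filter.Eventually.of_forall fun ω => ?_)
      rw [Real.norm_of_nonneg (by positivity)]
      have h1 := hle1 (i ^ 32) ω
      exact pow_le_one₀ (by positivity) h1) b hb (by
      filter_upwards [eventually_ge_atTop (3 + 2 * r + 4 * h)] with i hi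
      have hi1 : 1 ≤ i ^ 32 := Nat.one_le_pow _ _ (by omega)
      have hM : 4 * h ≤ r ^ (2 * i ^ 16) := by
        calc 4 * h ≤ i := by omega
          _ ≤ 2 ^ i := Nat.lt_two_pow_self.le
          _ ≤ r ^ i := Nat.pow_le_pow_left hr i
          _ ≤ r ^ (2 * i ^ 16) := by
            apply Nat.pow_le_pow_right (by omega)
            have := Nat.le_self_pow (n := 16) (by norm_num) i
            omega
      have h1 := second_moment (δ := dl) hr h hh (i ^ 32) (i ^ 16) (i ^ 8) hi1 hM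
      have h2 := Aerr_le r h i hr (by omega) (by omega)
      refine h1.trans ?_
      simp only [b]
      refine add_le_add ?_ h2
      have hx1 : (1:ℝ) ≤ i := by exact_mod_cast (by omega : 1 ≤ i)
      push_cast
      have h3 : 6 * (i:ℝ) ^ 16 / (i:ℝ) ^ 32 = 6 * (1 / (i:ℝ) ^ 16) := by
        field_simp
      rw [h3]
      gcongr
      norm_num)
  filter_upwards [hae] with ω hω
  have hω2 : Tendsto (fun j : ℕ =>
      ‖∑ i ∈ Finset.range (j ^ 32), ee (h * (r:ℝ) ^ i / yy r ω)‖ / ((j ^ 32 : ℕ) : ℝ))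
      atTop (𝓝 0) := by
    have h1 := hω.sqrt
    rw [Real.sqrt_zero] at h1
    refine h1.congr fun j => ?_
    simp only [f]
    exact Real.sqrt_sq (by positivity)
  refine subseq_lim (fun N => ‖∑ i ∈ Finset.range N, ee (h * (r:ℝ) ^ i / yy r ω)‖)
    (fun N => norm_nonneg _) ?_ hω2
  intro N N' hNN
  rw [← Finset.sum_range_add_sum_Ico _ hNN]
  refine (norm_add_le _ _).trans ?_
  gcongr
  refine (norm_sum_le _ _).trans ?_
  simp only [ee_norm, Finset.sum_const, Nat.card_Ico, nsmul_eq_mul, mul_one]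
  rw [Nat.cast_sub hNN]

theorem integral_dig (k : ℕ) : ∫ ω, dig ω k ∂(mu dl) = dl k := by
  have h5 := measurePreserving_eval_infinitePi (fun k => bern (dl k)) k
  have h4 : ∫ ω : ℕ → Bool, dig ω k ∂(mu dl) = ∫ b, (if b then (1:ℝ) else 0) ∂(bern (dl k)) := by
    rw [← h5.map_eq, integral_map]
    · rfl
    · exact (measurable_pi_apply _).aemeasurable
    · exact (measurable_of_countable _).aestronglyMeasurable
  rw [h4]
  have h6 := bern_integral (dl k) (dl_adm.pos k).le ((dl_adm.half k).trans (by norm_num))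
    (fun b => (((if b then (1:ℝ) else 0) : ℝ) : ℂ))
  rw [integral_complex_ofReal] at h6
  apply Complex.ofReal_injective
  rw [h6]
  simp

/-- almost sure vanishing of the density of nonzero digits -/
theorem ae_dens : ∀ᵐ ω ∂(mu dl), Tendsto (fun N : ℕ =>
      (((Finset.range N).filter (fun i => ω i = true)).card : ℝ) / (N : ℝ)) atTop (𝓝 0) := by
  have hcount : ∀ (N : ℕ) (ω : ℕ → Bool),
      (((Finset.range N).filter (fun i => ω i = true)).card : ℝ)
        = ∑ k ∈ Finset.range N, dig ω k := by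
    intro N ω
    rw [Finset.card_filter]
    push_cast
    rfl
  let f : ℕ → (ℕ → Bool) → ℝ := fun j ω =>
    (((Finset.range (j ^ 32)).filter (fun i => ω i = true)).card : ℝ) / ((j ^ 32 : ℕ) : ℝ)
  let b : ℕ → ℝ := fun i => 2 * (1 / (i:ℝ) ^ 2)
  have hb : Summable b := (Real.summable_one_div_nat_pow.2 (by norm_num)).mul_left 2
  have hdi : ∀ k, Integrable (fun ω : ℕ → Bool => dig ω k) (mu dl) := by
    intro k
    refine Integrable.of_bound (measurable_dig k).aestronglyMeasurable 1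
      (Filter.Eventually.of_forall fun ω => ?_)
    rw [Real.norm_of_nonneg (dig_nonneg ω k)]
    exact dig_le_one ω k
  have hfi : ∀ i, Integrable (f i) (mu dl) := by
    intro i
    simp only [f, hcount]
    exact (integrable_finsetSum _ (fun k _ => hdi k)).div_const _
  have hae := ae_lim (mu dl) f (fun i ω => by positivity) hfi b hb (by
    filter_upwards [eventually_ge_atTop 1] with i hi
    have hx1 : (1:ℝ) ≤ i := by exact_mod_cast hi
    simp only [f, hcount, b]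
    rw [integral_div, integral_finsetSum _ (fun k _ => hdi k)]
    simp only [integral_dig]
    have h1 : ∑ k ∈ Finset.range (i ^ 32), dl k ≤ (i:ℝ) ^ 24 + (i:ℝ) ^ 32 * (1 / (2 * (i:ℝ) ^ 3)) := by
      have h24 : i ^ 24 ≤ i ^ 32 := Nat.pow_le_pow_right hi (by norm_num)
      rw [← Finset.sum_range_add_sum_Ico _ h24]
      apply add_le_add
      · refine (Finset.sum_le_card_nsmul _ _ 1 (fun k _ => ?_)).trans ?_
        · have := dl_adm.half k; linarith
        · simp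
      · refine (Finset.sum_le_card_nsmul _ _ (1 / (2 * (i:ℝ) ^ 3)) (fun k hk => ?_)).trans ?_
        · rw [Finset.mem_Ico] at hk
          apply dl_le k _ (by positivity)
          have : ((i ^ 24 : ℕ) : ℝ) ≤ k := by exact_mod_cast hk.1
          push_cast at this
          calc ((i:ℝ) ^ 3) ^ 8 = (i:ℝ) ^ 24 := by ring
            _ ≤ (k:ℝ) + 1 := by linarith
        · rw [Nat.card_Ico, nsmul_eq_mul]
          gcongr
          have : ((i ^ 32 - i ^ 24 : ℕ) : ℝ) ≤ ((i ^ 32 : ℕ) : ℝ) := by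
            exact_mod_cast Nat.sub_le _ _
          push_cast at this ⊢
          exact this
    calc (∑ k ∈ Finset.range (i ^ 32), dl k) / ((i ^ 32 : ℕ) : ℝ)
        ≤ ((i:ℝ) ^ 24 + (i:ℝ) ^ 32 * (1 / (2 * (i:ℝ) ^ 3))) / ((i ^ 32 : ℕ) : ℝ) := by gcongr
      _ = 1 / (i:ℝ) ^ 8 + 1 / (2 * (i:ℝ) ^ 3) := by
          push_cast; field_simp
      _ ≤ 1 / (i:ℝ) ^ 2 + 1 / (i:ℝ) ^ 2 := by
          gcongr
          · norm_num
          · nlinarith [pow_le_pow_right₀ hx1 (by norm_num : 2 ≤ 3), pow_pos (by linarith : (0:ℝ) < i) 3]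
      _ = 2 * (1 / (i:ℝ) ^ 2) := by ring)
  filter_upwards [hae] with ω hω
  refine subseq_lim (fun N => (((Finset.range N).filter (fun i => ω i = true)).card : ℝ))
    (fun N => by positivity) ?_ hω
  intro N N' hNN
  simp only [hcount]
  rw [← Finset.sum_range_add_sum_Ico _ hNN]
  gcongr
  refine (Finset.sum_le_card_nsmul _ _ 1 (fun k _ => dig_le_one ω k)).trans ?_
  rw [Nat.card_Ico, nsmul_eq_mul, mul_one, Nat.cast_sub hNN]

/-- There is a deterministic number in `[1,2]` whose reciprocal is normal. -/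
theorem main_exists (r : ℕ) (hr : 2 ≤ r) : ∃ x : ℝ,
      (∀ k : ℕ, 1 ≤ k → ∀ w : Fin k → Fin r,
        Filter.Tendsto
          (fun N : ℕ =>
            ((((Finset.range N).filter
                (fun i => ∀ j : Fin k,
                  ⌊x * (r : ℝ) ^ (i + (j : ℕ) + 1)⌋ % (r : ℤ) = ((w j : ℕ) : ℤ))).card : ℝ)
              / (N : ℝ)))
          Filter.atTop (nhds (1 / (r : ℝ) ^ k))) ∧
      (∀ ε : ℝ, 0 < ε → ∃ n : ℕ, 1 ≤ n ∧ ∃ N0 : ℕ, ∀ N : ℕ, N0 ≤ N →
        ∑ w : Fin n → Fin r,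
          Real.negMulLog
            ((((Finset.range N).filter
                (fun i => ∀ j : Fin n,
                  ⌊x⁻¹ * (r : ℝ) ^ (i + (j : ℕ) + 1)⌋ % (r : ℤ) = ((w j : ℕ) : ℤ))).card : ℝ)
              / (N : ℝ)) < ε * n) := by
  have h1 : ∀ᵐ ω ∂(mu dl), ∀ h : ℕ, 1 ≤ h → Tendsto (fun N : ℕ =>
      ‖∑ i ∈ Finset.range N, ee (h * (r:ℝ) ^ i / yy r ω)‖ / (N : ℝ)) atTop (𝓝 0) := by
    rw [ae_all_iff]
    intro h
    by_cases hh : 1 ≤ h
    · filter_upwards [ae_exp r hr h hh] with ω hω _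
      exact hω
    · exact Filter.Eventually.of_forall fun ω hh' => absurd hh' hh
  obtain ⟨ω, hω1, hω2⟩ := (h1.and ae_dens).exists
  refine ⟨(yy r ω)⁻¹, ?_, ?_⟩
  · intro k _ w
    apply normal_of_weyl r hr
    intro h hh
    rw [tendsto_zero_iff_norm_tendsto_zero]
    refine (hω1 h hh).congr fun N => ?_
    rw [norm_div, Complex.norm_natCast]
    congr 2
    refine Finset.sum_congr rfl fun i _ => ?_
    unfold ee
    congr 1
    push_cast
    ring
  · intro ε hε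
    refine ⟨1, le_rfl, ?_⟩
    rw [inv_inv]
    have := determ hr ω hω2 (ε * (1:ℕ)) (by simpa using hε)
    exact this

end

end Pool.Agent.Lib.Helper35
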